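import Pool.Agent.Lib.MP_627919_pr.Check

/-!
Kernel check of a quarter of the table.
-/

namespace Pool.Agent.Lib.MP_627919_pr

theorem c0_0 : chkR 0 8 = true := by decide +kernel
theorem c0_1 : chkR 8 8 = true := by decide +kernel
theorem c0_2 : chkR 16 8 = true := by decide +kernel
theorem c0_3 : chkR 24 8 = true := by decide +kernel
theorem c0_4 : chkR 32 8 = true := by decide +kernel
theorem c0_5 : chkR 40 8 = true := by decide +kernel
theorem c0_6 : chkR 48 8 = true := by decide +kernel
theorem c0_7 : chkR 56 8 = true := by decide +kernel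
theorem c0_8 : chkR 64 8 = true := by decide +kernel
theorem c0_9 : chkR 72 8 = true := by decide +kernel
theorem c0_10 : chkR 80 8 = true := by decide +kernel
theorem c0_11 : chkR 88 8 = true := by decide +kernel
theorem c0_12 : chkR 96 8 = true := by decide +kernel
theorem c0_13 : chkR 104 8 = true := by decide +kernel
theorem c0_14 : chkR 112 8 = true := by decide +kernel
theorem c0_15 : chkR 120 8 = true := by decide +kernel
theorem c0_16 : chkR 128 8 = true := by decide +kernel
theorem c0_17 : chkR 136 8 = true := by decide +kernel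
theorem c0_18 : chkR 144 8 = true := by decide +kernel
theorem c0_19 : chkR 152 8 = true := by decide +kernel
theorem c0_20 : chkR 160 8 = true := by decide +kernel
theorem c0_21 : chkR 168 8 = true := by decide +kernel
theorem c0_22 : chkR 176 8 = true := by decide +kernel
theorem c0_23 : chkR 184 8 = true := by decide +kernel
theorem c0_24 : chkR 192 8 = true := by decide +kernel
theorem c0_25 : chkR 200 6 = true := by decide +kernel

theorem cert0 (i : ℕ) (h : 0 ≤ i ∧ i < 206) : chkS (tab i) = true := by
  by_contra h0
  have := mt (chkR_spec c0_0 i) h0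
  have := mt (chkR_spec c0_1 i) h0
  have := mt (chkR_spec c0_2 i) h0
  have := mt (chkR_spec c0_3 i) h0
  have := mt (chkR_spec c0_4 i) h0
  have := mt (chkR_spec c0_5 i) h0
  have := mt (chkR_spec c0_6 i) h0
  have := mt (chkR_spec c0_7 i) h0
  have := mt (chkR_spec c0_8 i) h0
  have := mt (chkR_spec c0_9 i) h0
  have := mt (chkR_spec c0_10 i) h0
  have := mt (chkR_spec c0_11 i) h0
  have := mt (chkR_spec c0_12 i) h0
  have := mt (chkR_spec c0_13 i) h0
  have := mt (chkR_spec c0_14 i) h0
  have := mt (chkR_spec c0_15 i) h0
  have := mt (chkR_spec c0_16 i) h0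
  have := mt (chkR_spec c0_17 i) h0
  have := mt (chkR_spec c0_18 i) h0
  have := mt (chkR_spec c0_19 i) h0
  have := mt (chkR_spec c0_20 i) h0
  have := mt (chkR_spec c0_21 i) h0
  have := mt (chkR_spec c0_22 i) h0
  have := mt (chkR_spec c0_23 i) h0
  have := mt (chkR_spec c0_24 i) h0
  have := mt (chkR_spec c0_25 i) h0
  clear h0
  omega

end Pool.Agent.Lib.MP_627919_pr
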