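import Pool.Agent.Lib.MP_627919_pr.Check

/-!
Kernel check of a quarter of the table.
-/

namespace Pool.Agent.Lib.MP_627919_pr

theorem c1_0 : chkR 206 8 = true := by decide +kernel
theorem c1_1 : chkR 214 8 = true := by decide +kernel
theorem c1_2 : chkR 222 8 = true := by decide +kernel
theorem c1_3 : chkR 230 8 = true := by decide +kernel
theorem c1_4 : chkR 238 8 = true := by decide +kernel
theorem c1_5 : chkR 246 8 = true := by decide +kernel
theorem c1_6 : chkR 254 8 = true := by decide +kernel
theorem c1_7 : chkR 262 8 = true := by decide +kernel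
theorem c1_8 : chkR 270 8 = true := by decide +kernel
theorem c1_9 : chkR 278 8 = true := by decide +kernel
theorem c1_10 : chkR 286 8 = true := by decide +kernel
theorem c1_11 : chkR 294 8 = true := by decide +kernel
theorem c1_12 : chkR 302 8 = true := by decide +kernel
theorem c1_13 : chkR 310 8 = true := by decide +kernel
theorem c1_14 : chkR 318 8 = true := by decide +kernel
theorem c1_15 : chkR 326 8 = true := by decide +kernel
theorem c1_16 : chkR 334 8 = true := by decide +kernel
theorem c1_17 : chkR 342 8 = true := by decide +kernel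
theorem c1_18 : chkR 350 8 = true := by decide +kernel
theorem c1_19 : chkR 358 8 = true := by decide +kernel
theorem c1_20 : chkR 366 8 = true := by decide +kernel
theorem c1_21 : chkR 374 8 = true := by decide +kernel
theorem c1_22 : chkR 382 8 = true := by decide +kernel
theorem c1_23 : chkR 390 8 = true := by decide +kernel
theorem c1_24 : chkR 398 8 = true := by decide +kernel
theorem c1_25 : chkR 406 6 = true := by decide +kernel

theorem cert1 (i : ℕ) (h : 206 ≤ i ∧ i < 412) : chkS (tab i) = true := by
  by_contra h0
  have := mt (chkR_spec c1_0 i) h0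
  have := mt (chkR_spec c1_1 i) h0
  have := mt (chkR_spec c1_2 i) h0
  have := mt (chkR_spec c1_3 i) h0
  have := mt (chkR_spec c1_4 i) h0
  have := mt (chkR_spec c1_5 i) h0
  have := mt (chkR_spec c1_6 i) h0
  have := mt (chkR_spec c1_7 i) h0
  have := mt (chkR_spec c1_8 i) h0
  have := mt (chkR_spec c1_9 i) h0
  have := mt (chkR_spec c1_10 i) h0
  have := mt (chkR_spec c1_11 i) h0
  have := mt (chkR_spec c1_12 i) h0
  have := mt (chkR_spec c1_13 i) h0
  have := mt (chkR_spec c1_14 i) h0
  have := mt (chkR_spec c1_15 i) h0
  have := mt (chkR_spec c1_16 i) h0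
  have := mt (chkR_spec c1_17 i) h0
  have := mt (chkR_spec c1_18 i) h0
  have := mt (chkR_spec c1_19 i) h0
  have := mt (chkR_spec c1_20 i) h0
  have := mt (chkR_spec c1_21 i) h0
  have := mt (chkR_spec c1_22 i) h0
  have := mt (chkR_spec c1_23 i) h0
  have := mt (chkR_spec c1_24 i) h0
  have := mt (chkR_spec c1_25 i) h0
  clear h0
  omega

end Pool.Agent.Lib.MP_627919_pr
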