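import Pool.Agent.Lib.MP_627919_pr.Check

/-!
Kernel check of a quarter of the table.
-/

namespace Pool.Agent.Lib.MP_627919_pr

theorem c2_0 : chkR 412 8 = true := by decide +kernel
theorem c2_1 : chkR 420 8 = true := by decide +kernel
theorem c2_2 : chkR 428 8 = true := by decide +kernel
theorem c2_3 : chkR 436 8 = true := by decide +kernel
theorem c2_4 : chkR 444 8 = true := by decide +kernel
theorem c2_5 : chkR 452 8 = true := by decide +kernel
theorem c2_6 : chkR 460 8 = true := by decide +kernel
theorem c2_7 : chkR 468 8 = true := by decide +kernel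
theorem c2_8 : chkR 476 8 = true := by decide +kernel
theorem c2_9 : chkR 484 8 = true := by decide +kernel
theorem c2_10 : chkR 492 8 = true := by decide +kernel
theorem c2_11 : chkR 500 8 = true := by decide +kernel
theorem c2_12 : chkR 508 8 = true := by decide +kernel
theorem c2_13 : chkR 516 8 = true := by decide +kernel
theorem c2_14 : chkR 524 8 = true := by decide +kernel
theorem c2_15 : chkR 532 8 = true := by decide +kernel
theorem c2_16 : chkR 540 8 = true := by decide +kernel
theorem c2_17 : chkR 548 8 = true := by decide +kernel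
theorem c2_18 : chkR 556 8 = true := by decide +kernel
theorem c2_19 : chkR 564 8 = true := by decide +kernel
theorem c2_20 : chkR 572 8 = true := by decide +kernel
theorem c2_21 : chkR 580 8 = true := by decide +kernel
theorem c2_22 : chkR 588 8 = true := by decide +kernel
theorem c2_23 : chkR 596 8 = true := by decide +kernel
theorem c2_24 : chkR 604 8 = true := by decide +kernel
theorem c2_25 : chkR 612 6 = true := by decide +kernel

theorem cert2 (i : ℕ) (h : 412 ≤ i ∧ i < 618) : chkS (tab i) = true := by
  by_contra h0
  have := mt (chkR_spec c2_0 i) h0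
  have := mt (chkR_spec c2_1 i) h0
  have := mt (chkR_spec c2_2 i) h0
  have := mt (chkR_spec c2_3 i) h0
  have := mt (chkR_spec c2_4 i) h0
  have := mt (chkR_spec c2_5 i) h0
  have := mt (chkR_spec c2_6 i) h0
  have := mt (chkR_spec c2_7 i) h0
  have := mt (chkR_spec c2_8 i) h0
  have := mt (chkR_spec c2_9 i) h0
  have := mt (chkR_spec c2_10 i) h0
  have := mt (chkR_spec c2_11 i) h0
  have := mt (chkR_spec c2_12 i) h0
  have := mt (chkR_spec c2_13 i) h0
  have := mt (chkR_spec c2_14 i) h0
  have := mt (chkR_spec c2_15 i) h0
  have := mt (chkR_spec c2_16 i) h0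
  have := mt (chkR_spec c2_17 i) h0
  have := mt (chkR_spec c2_18 i) h0
  have := mt (chkR_spec c2_19 i) h0
  have := mt (chkR_spec c2_20 i) h0
  have := mt (chkR_spec c2_21 i) h0
  have := mt (chkR_spec c2_22 i) h0
  have := mt (chkR_spec c2_23 i) h0
  have := mt (chkR_spec c2_24 i) h0
  have := mt (chkR_spec c2_25 i) h0
  clear h0
  omega

end Pool.Agent.Lib.MP_627919_pr
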