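import Pool.Agent.Lib.MP_627919_pr.Check

/-!
Kernel check of a quarter of the table.
-/

namespace Pool.Agent.Lib.MP_627919_pr

theorem c3_0 : chkR 618 8 = true := by decide +kernel
theorem c3_1 : chkR 626 8 = true := by decide +kernel
theorem c3_2 : chkR 634 8 = true := by decide +kernel
theorem c3_3 : chkR 642 8 = true := by decide +kernel
theorem c3_4 : chkR 650 8 = true := by decide +kernel
theorem c3_5 : chkR 658 8 = true := by decide +kernel
theorem c3_6 : chkR 666 8 = true := by decide +kernel
theorem c3_7 : chkR 674 8 = true := by decide +kernel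
theorem c3_8 : chkR 682 8 = true := by decide +kernel
theorem c3_9 : chkR 690 8 = true := by decide +kernel
theorem c3_10 : chkR 698 8 = true := by decide +kernel
theorem c3_11 : chkR 706 8 = true := by decide +kernel
theorem c3_12 : chkR 714 8 = true := by decide +kernel
theorem c3_13 : chkR 722 8 = true := by decide +kernel
theorem c3_14 : chkR 730 8 = true := by decide +kernel
theorem c3_15 : chkR 738 8 = true := by decide +kernel
theorem c3_16 : chkR 746 8 = true := by decide +kernel
theorem c3_17 : chkR 754 8 = true := by decide +kernel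
theorem c3_18 : chkR 762 8 = true := by decide +kernel
theorem c3_19 : chkR 770 8 = true := by decide +kernel
theorem c3_20 : chkR 778 8 = true := by decide +kernel
theorem c3_21 : chkR 786 8 = true := by decide +kernel
theorem c3_22 : chkR 794 8 = true := by decide +kernel
theorem c3_23 : chkR 802 8 = true := by decide +kernel
theorem c3_24 : chkR 810 8 = true := by decide +kernel
theorem c3_25 : chkR 818 6 = true := by decide +kernel

theorem cert3 (i : ℕ) (h : 618 ≤ i ∧ i < 824) : chkS (tab i) = true := by
  by_contra h0
  have := mt (chkR_spec c3_0 i) h0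
  have := mt (chkR_spec c3_1 i) h0
  have := mt (chkR_spec c3_2 i) h0
  have := mt (chkR_spec c3_3 i) h0
  have := mt (chkR_spec c3_4 i) h0
  have := mt (chkR_spec c3_5 i) h0
  have := mt (chkR_spec c3_6 i) h0
  have := mt (chkR_spec c3_7 i) h0
  have := mt (chkR_spec c3_8 i) h0
  have := mt (chkR_spec c3_9 i) h0
  have := mt (chkR_spec c3_10 i) h0
  have := mt (chkR_spec c3_11 i) h0
  have := mt (chkR_spec c3_12 i) h0
  have := mt (chkR_spec c3_13 i) h0
  have := mt (chkR_spec c3_14 i) h0
  have := mt (chkR_spec c3_15 i) h0
  have := mt (chkR_spec c3_16 i) h0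
  have := mt (chkR_spec c3_17 i) h0
  have := mt (chkR_spec c3_18 i) h0
  have := mt (chkR_spec c3_19 i) h0
  have := mt (chkR_spec c3_20 i) h0
  have := mt (chkR_spec c3_21 i) h0
  have := mt (chkR_spec c3_22 i) h0
  have := mt (chkR_spec c3_23 i) h0
  have := mt (chkR_spec c3_24 i) h0
  have := mt (chkR_spec c3_25 i) h0
  clear h0
  omega

end Pool.Agent.Lib.MP_627919_pr
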