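import Pool.Agent.Lib.MP_627919_pr.MachB
import Pool.Agent.Lib.MP_627919_pr.Tab

/-!
Decoding of the table, the checker, and the machine it defines.
-/

namespace Pool.Agent.Lib.MP_627919_pr

/-- record of a state -/
def tab (i : ℕ) : ℕ := (tabs.getD (i / 103) []).getD (i % 103) 0

/-- decode a point -/
def gv (n : ℕ) : V := (Int.subNatNat (n % 64) 32, Int.subNatNat (n / 64 % 64) 32)

/-- decode a path -/
def gpath : ℕ → ℕ → List V
  | 0, _ => []
  | k + 1, n => gv n :: gpath k (n / 4096)

/-- decode a mask -/
def gm (n : ℕ) : M := fun c => n.testBit c.val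

/-- decode remembered sites -/
def gmem : ℕ → ℕ → List Sl
  | 0, _ => []
  | k + 1, n => ⟨gv n, gm (n / 4096), gm (n / 65536)⟩ :: gmem k (n / 1048576)

/-- decode a state -/
def gst (n : ℕ) : St := ⟨(0, 0), gpath (n % 16) (n / 16), gmem ((n >>> 112) % 8) (n >>> 115)⟩

/-- attach actions -/
def grows : List Sl → ℕ → List Row
  | [], _ => []
  | z :: l, n => ⟨z, gm n, n.testBit 4⟩ :: grows l (n / 32)

theorem grows_map (l : List Sl) (n : ℕ) : (grows l n).map Row.s = l := by
  induction l generalizing n with
  | nil => rfl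
  | cons z l ih => simp [grows, ih]

/-- code of a transition -/
def gc (n : ℕ) (r : Fin 4) : ℕ := n >>> (200 + 44 * r.val)

/-- new sites -/
def gnew (c : ℕ) (r : Fin 4) : List V :=
  (bif c.testBit 11 then [lft (0, 0) r] else []) ++ (bif c.testBit 12 then [rgt (0, 0) r] else [])

/-- rows of a transition -/
def rowsOf (n : ℕ) (r : Fin 4) : List Row :=
  grows ((gst n).mem ++ (gnew (gc n r) r).map fresh) (gc n r >>> 13)

/-- successor -/
def gj (n : ℕ) (r : Fin 4) : ℕ := gc n r / 2 % 1024 % 824

/-- index of a bit list -/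
def idx : List Bool → ℕ
  | [] => 0
  | b :: l => (bif b then 1 else 0) + 2 * idx l

/-- potential -/
def gH (n : ℕ) (b : List Bool) : ℕ := (n >>> (376 + 16 * idx b)) % 65536 + 1

/-- geometric check of a transition -/
def chkT (n : ℕ) (r : Fin 4) : Bool :=
  bif (gc n r).testBit 0 then
    decide (((gst (tab (gj n r))).map (nxt (0, 0) r) r).path = ((0, 0) :: (gst n).path).take
      ((gst (tab (gj n r))).map (nxt (0, 0) r) r).path.length) &&
    decide (((gst (tab (gj n r))).map (nxt (0, 0) r) r).mem
      = ((rowsOf n r).filter Row.keep).map (Row.out (0, 0) r)) &&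
    decide ((rowsOf n r).map fun ρ => ρ.s.v).Nodup && decide ((rowsOf n r).length ≤ 6) &&
    (rowsOf n r).all fun ρ => decide (RowOK (nxt (0, 0) r :: (0, 0) :: (gst n).path) (0, 0) r ρ)
  else decide (nxt (0, 0) r ∈ (gst n).path)

/-- all bit lists of a given length -/
def allB : ℕ → (List Bool → Bool) → Bool
  | 0, f => f []
  | k + 1, f => allB k (fun l => f (true :: l)) && allB k fun l => f (false :: l)

theorem allB_spec {k : ℕ} {f : List Bool → Bool} (h : allB k f = true) (l : List Bool)
    (hl : l.length = k) : f l = true := by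
  induction k generalizing f l with
  | zero => rwa [List.length_eq_zero_iff.1 hl]
  | succ k ih =>
    rw [allB, Bool.and_eq_true] at h
    cases l with
    | nil => simp at hl
    | cons b l =>
      cases b
      · exact ih h.2 l (by simpa using hl)
      · exact ih h.1 l (by simpa using hl)

/-- value of a transition -/
def gval (n : ℕ) (r : Fin 4) (b : List Bool) : ℕ :=
  bif (gc n r).testBit 0 then val ((rowsOf n r).map (Row.comp (0, 0) r)) (gH (tab (gj n r))) b
  else 0

/-- check of a state -/
def chkS (n : ℕ) : Bool :=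
  chkT n 0 && chkT n 1 && chkT n 2 && chkT n 3 && allB (gst n).mem.length fun b =>
    Nat.ble (10000 * (gval n 0 b + gval n 1 b + gval n 2 b + gval n 3 b)) (29853868032 * gH n b)

theorem fc_rot (x : M) (o : Fin 4) : fc (fun c => x (c - o)) = fc x := by
  have e : ∀ y : M, fc y = ∑ c, if y c then 0 else 1 := fun y => by rw [fc, Fin.sum_univ_four]
  rw [e, e]
  exact Equiv.sum_comp (Equiv.subRight o) fun c => if x c then 0 else 1

theorem Row.comp_map (p : V) (o : Fin 4) (a : V) (d : Fin 4) (ρ : Row) :
    (ρ.map p o).comp (fr p o a) (o + d) = ρ.comp a d := by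
  rw [Row.comp, Row.out_map]
  simp only [Row.comp, Row.map, Sl.map, fc_rot, ← fr_lft, ← fr_rgt, (fr_inj p o).eq_iff]

theorem chkT_step {n : ℕ} {r : Fin 4} (h : chkT n r = true) (hv : (gc n r).testBit 0 = true) :
    Step (gst n) r (rowsOf n r) ((gst (tab (gj n r))).map (nxt (0, 0) r) r) := by
  simp only [chkT, hv, cond_true, Bool.and_eq_true, decide_eq_true_eq, List.all_eq_true] at h
  exact ⟨fr_zero _ _, h.1.1.1.1, ⟨_, grows_map _ _⟩, h.1.1.1.2, h.1.1.2, h.1.2, h.2⟩

/-- the machine -/
def mach (h : ∀ i < 824, chkS (tab i) = true) : Mach (Fin 824 × V × Fin 4) where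
  abs s := (gst (tab s.1)).map s.2.1 s.2.2
  nx s d := bif (gc (tab s.1) (d - s.2.2)).testBit 0 then
    some ((rowsOf (tab s.1) (d - s.2.2)).map (Row.map s.2.1 s.2.2),
      (⟨gj (tab s.1) (d - s.2.2), Nat.mod_lt _ (by norm_num)⟩,
        fr s.2.1 s.2.2 (nxt (0, 0) (d - s.2.2)), s.2.2 + (d - s.2.2))) else none
  H s := gH (tab s.1)
  den := 10000
  X := 29853868032
  hnone := by
    rintro ⟨i, p, o⟩ d hn
    have h1 := h i i.2
    have h2 : chkT (tab i) (d - o) = true := by
      simp only [chkS, Bool.and_eq_true] at h1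
      generalize d - o = r
      fin_cases r
      exacts [h1.1.1.1.1, h1.1.1.1.2, h1.1.1.2, h1.1.2]
    cases hv : (gc (tab i) (d - o)).testBit 0
    · simp only [chkT, hv, cond_false, decide_eq_true_eq] at h2
      have := List.mem_map_of_mem (f := fr p o) h2
      rwa [fr_nxt, add_sub_cancel] at this
    · simp only [hv, cond_true, reduceCtorEq] at hn
  hsome := by
    rintro ⟨i, p, o⟩ d rows s' hn
    have h1 := h i i.2
    have h2 : chkT (tab i) (d - o) = true := by
      simp only [chkS, Bool.and_eq_true] at h1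
      generalize d - o = r
      fin_cases r
      exacts [h1.1.1.1.1, h1.1.1.1.2, h1.1.1.2, h1.1.2]
    cases hv : (gc (tab i) (d - o)).testBit 0
    · simp only [hv, cond_false, reduceCtorEq] at hn
    · simp only [hv, cond_true, Option.some.injEq, Prod.mk.injEq] at hn
      obtain ⟨rfl, rfl⟩ := hn
      have := (chkT_step h2 hv).map p o
      rw [St.map_map] at this
      have e : o + (d - o) = d := add_sub_cancel o d
      exact (congrArg (fun z => Step _ z _ _) e).mp this
  hH s b := Nat.le_add_left _ _
  hpot := by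
    rintro ⟨i, p, o⟩ b hb
    have h1 := h i i.2
    simp only [chkS, Bool.and_eq_true] at h1
    have h2 := allB_spec h1.2 b (by simpa [St.map] using hb)
    rw [Nat.ble_eq, ← Fin.sum_univ_four fun r => gval (tab i) r b] at h2
    rw [← Equiv.sum_comp (Equiv.addLeft o)]
    refine le_of_eq_of_le (congrArg _ (Finset.sum_congr rfl fun r _ => ?_)) h2
    simp only [Equiv.coe_addLeft, add_sub_cancel_left, gval]
    cases (gc (tab i) r).testBit 0
    · rfl
    · simp only [cond_true, Option.elim, List.map_map]
      congr 1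
      exact List.map_congr_left fun ρ _ => Row.comp_map ..

/-- check of a range of states -/
def chkR (lo k : ℕ) : Bool := (List.range' lo k).all fun i => chkS (tab i)

theorem chkR_spec {lo k : ℕ} (h : chkR lo k = true) (i : ℕ) (h1 : lo ≤ i ∧ i < lo + k) :
    chkS (tab i) = true :=
  List.all_eq_true.1 h i (List.mem_range'_1.2 h1)

end Pool.Agent.Lib.MP_627919_pr
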