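import Mathlib

/-!
The bidirectional `k`-neighbour graph on the lattice of dimension `d`.
-/

namespace Pool.Agent.Lib.MP_627919_pr

open MeasureTheory ProbabilityTheory

/-- the nearest neighbours of `x`: the points at `ℓ₁` distance one -/
def nbrs {d : ℕ} (x : Fin d → ℤ) : Set (Fin d → ℤ) := {y | ∑ i, |y i - x i| = 1}

/-- the law of the family `S`: independently for each vertex `x`, the set `S x` is uniform among
the sets of exactly `k` nearest neighbours of `x` -/
noncomputable def law (k d : ℕ) : Measure ((Fin d → ℤ) → Set (Fin d → ℤ)) :=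
  Measure.infinitePi fun x => uniformOn {s | s ⊆ nbrs x ∧ s.ncard = k}

/-- the edges of the bidirectional graph: nearest neighbours that choose each other -/
def BAdj {d : ℕ} (S : (Fin d → ℤ) → Set (Fin d → ℤ)) (x y : Fin d → ℤ) : Prop :=
  y ∈ nbrs x ∧ y ∈ S x ∧ x ∈ S y

/-- the event that the connected component of the origin is infinite -/
def Perc (d : ℕ) : Set ((Fin d → ℤ) → Set (Fin d → ℤ)) :=
  {S | {y | Relation.ReflTransGen (BAdj S) 0 y}.Infinite}

end Pool.Agent.Lib.MP_627919_pr
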