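import Pool.Agent.Lib.MP_627919_pr.Prob

/-!
Geometry in doubled coordinates: a site `v` has four sides, the side `c` has end points
`lft v c` and `rgt v c`; a dual step from `p` in direction `d` goes to `nxt p d`.
-/

namespace Pool.Agent.Lib.MP_627919_pr

/-- unit vectors -/
def ev (c : Fin 4) : V :=
  match c.val with
  | 0 => (1, 0)
  | 1 => (0, 1)
  | 2 => (-1, 0)
  | _ => (0, -1)

/-- dual step -/
def nxt (p : V) (d : Fin 4) : V := p + ev d + ev d
/-- left neighbour of a step -/
def lft (p : V) (d : Fin 4) : V := p + ev d + ev (d + 1)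
/-- right neighbour of a step -/
def rgt (p : V) (d : Fin 4) : V := p + ev d + ev (d + 3)

/-- the step from `p` in direction `d` runs along side `c` of site `v` -/
def Sd (p : V) (d : Fin 4) (v : V) (c : Fin 4) : Prop :=
  (v = lft p d ∧ c = d + 3) ∨ (v = rgt p d ∧ c = d + 1)

instance (p : V) (d : Fin 4) (v : V) (c : Fin 4) : Decidable (Sd p d v c) := by
  unfold Sd; infer_instance

theorem Sd.ends {p : V} {d : Fin 4} {v : V} {c : Fin 4} (h : Sd p d v c) :
    (lft v c = nxt p d ∧ rgt v c = p) ∨ (lft v c = p ∧ rgt v c = nxt p d) := by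
  obtain ⟨x, y⟩ := p
  rcases h with ⟨rfl, rfl⟩ | ⟨rfl, rfl⟩
  · left
    fin_cases d <;> simp [lft, rgt, nxt, ev]
  · right
    fin_cases d <;> simp [lft, rgt, nxt, ev]

theorem lft_ne_rgt (p : V) (d : Fin 4) : lft p d ≠ rgt p d := by
  obtain ⟨x, y⟩ := p
  fin_cases d <;> simp [lft, rgt, ev]

/-- rotation -/
def rot (o : Fin 4) (a : V) : V :=
  match o.val with
  | 0 => a
  | 1 => (-a.2, a.1)
  | 2 => (-a.1, -a.2)
  | _ => (a.2, -a.1)

/-- frame change -/
def fr (p : V) (o : Fin 4) (a : V) : V := p + rot o a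

theorem fr_inj (p : V) (o : Fin 4) : Function.Injective (fr p o) := by
  rintro ⟨x, y⟩ ⟨z, w⟩ h
  obtain ⟨a, b⟩ := p
  fin_cases o <;> simp [fr, rot] at h <;> simp <;> omega

theorem fr_add_ev (p : V) (o : Fin 4) (a : V) (c : Fin 4) :
    fr p o (a + ev c) = fr p o a + ev (o + c) := by
  obtain ⟨x, y⟩ := a
  obtain ⟨a, b⟩ := p
  fin_cases o <;> fin_cases c <;> simp [fr, rot, ev] <;> omega

theorem fr_fr (p : V) (o : Fin 4) (q : V) (r : Fin 4) (a : V) :
    fr p o (fr q r a) = fr (fr p o q) (o + r) a := by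
  obtain ⟨x, y⟩ := a
  obtain ⟨a, b⟩ := p
  obtain ⟨z, w⟩ := q
  fin_cases o <;> fin_cases r <;> simp [fr, rot] <;> omega

theorem fr_nxt (p : V) (o : Fin 4) (a : V) (c : Fin 4) :
    fr p o (nxt a c) = nxt (fr p o a) (o + c) := by
  simp only [nxt, fr_add_ev]

theorem fr_lft (p : V) (o : Fin 4) (a : V) (c : Fin 4) :
    fr p o (lft a c) = lft (fr p o a) (o + c) := by
  simp only [lft, fr_add_ev, add_assoc o]

theorem fr_rgt (p : V) (o : Fin 4) (a : V) (c : Fin 4) :
    fr p o (rgt a c) = rgt (fr p o a) (o + c) := by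
  simp only [rgt, fr_add_ev, add_assoc o]

theorem fr_zero (p : V) (o : Fin 4) : fr p o 0 = p := by
  fin_cases o <;> simp [fr, rot]

theorem Sd_fr (p : V) (o : Fin 4) (a : V) (d : Fin 4) (v : V) (c : Fin 4) :
    Sd (fr p o a) (o + d) (fr p o v) c ↔ Sd a d v (c - o) := by
  simp only [Sd, ← fr_lft, ← fr_rgt, (fr_inj p o).eq_iff, sub_eq_iff_eq_add', add_assoc]

/-- masks -/
abbrev M := Fin 4 → Bool

/-- a remembered site: position, touched sides, excluded sides -/
structure Sl where
  /-- position -/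
  v : V
  /-- touched -/
  t : M
  /-- excluded -/
  x : M

instance : DecidableEq Sl := fun a b =>
  decidable_of_iff (a.v = b.v ∧ ∀ c, a.t c = b.t c ∧ a.x c = b.x c) (by
    obtain ⟨v, t, x⟩ := a
    obtain ⟨v', t', x'⟩ := b
    simp only [Sl.mk.injEq, funext_iff, forall_and])

/-- a remembered site with the action taken on it -/
structure Row where
  /-- the site -/
  s : Sl
  /-- sides excluded now -/
  ng : M
  /-- is it kept -/
  keep : Bool

/-- machine state -/
structure St where
  /-- head -/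
  p : V
  /-- earlier vertices -/
  path : List V
  /-- remembered sites -/
  mem : List Sl

/-- a fresh site -/
def fresh (v : V) : Sl := ⟨v, fun _ => false, fun _ => false⟩

/-- the updated site -/
def Row.out (p : V) (d : Fin 4) (ρ : Row) : Sl :=
  ⟨ρ.s.v, fun c => ρ.s.t c || decide (Sd p d ρ.s.v c),
    fun c => ρ.s.x c || decide (Sd p d ρ.s.v c) || ρ.ng c⟩

/-- `a` is an inner vertex of the path and `b` is not next to it on the path -/
def Cert (L : List V) (a b : V) : Prop :=
  ∃ k < L.length, L[k + 1]? = some a ∧ k + 2 < L.length ∧ L[k]? ≠ some b ∧ L[k + 2]? ≠ some b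

/-- `a` and `b` are vertices of the path, at least two apart -/
def Chord (L : List V) (a b : V) : Prop :=
  ∃ i < L.length, L[i]? = some a ∧ ∃ j < L.length, L[j]? = some b ∧ (i + 1 < j ∨ j + 1 < i)

instance (L : List V) (a b : V) : Decidable (Cert L a b) := by unfold Cert; infer_instance
instance (L : List V) (a b : V) : Decidable (Chord L a b) := by unfold Chord; infer_instance

/-- local conditions on a row -/
def RowOK (L : List V) (p : V) (d : Fin 4) (ρ : Row) : Prop :=
  (∃ c, (ρ.out p d).t c = true) ∧ (∀ c, ρ.s.t c = true → ¬ Sd p d ρ.s.v c) ∧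
    ∀ c, ρ.ng c = true → Chord L (lft ρ.s.v c) (rgt ρ.s.v c) ∧
      ∀ e, (ρ.out p d).t e = true ∨ Cert L (lft ρ.s.v e) (rgt ρ.s.v e)
        ∨ Cert L (rgt ρ.s.v e) (lft ρ.s.v e)

instance (L : List V) (p : V) (d : Fin 4) (ρ : Row) : Decidable (RowOK L p d ρ) := by
  unfold RowOK; infer_instance

/-- a legal transition -/
structure Step (s : St) (d : Fin 4) (rows : List Row) (s' : St) : Prop where
  hp : s'.p = nxt s.p d
  hpath : s'.path = (s.p :: s.path).take s'.path.length
  hin : ∃ new : List V, rows.map Row.s = s.mem ++ new.map fresh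
  hout : s'.mem = (rows.filter Row.keep).map (Row.out s.p d)
  hnd : (rows.map fun ρ => ρ.s.v).Nodup
  hlen : rows.length ≤ 6
  hrow : ∀ ρ ∈ rows, RowOK (nxt s.p d :: s.p :: s.path) s.p d ρ

/-- a site in another frame -/
def Sl.map (p : V) (o : Fin 4) (s : Sl) : Sl :=
  ⟨fr p o s.v, fun c => s.t (c - o), fun c => s.x (c - o)⟩
/-- a row in another frame -/
def Row.map (p : V) (o : Fin 4) (ρ : Row) : Row := ⟨ρ.s.map p o, fun c => ρ.ng (c - o), ρ.keep⟩
/-- a state in another frame -/
def St.map (p : V) (o : Fin 4) (s : St) : St :=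
  ⟨fr p o s.p, s.path.map (fr p o), s.mem.map (Sl.map p o)⟩

theorem St.map_map (p : V) (o : Fin 4) (q : V) (r : Fin 4) (s : St) :
    (s.map q r).map p o = s.map (fr p o q) (o + r) := by
  simp only [St.map, fr_fr, List.map_map, St.mk.injEq, true_and]
  constructor
  · exact List.map_congr_left fun a _ => fr_fr ..
  · refine List.map_congr_left fun a _ => ?_
    simp only [Function.comp, Sl.map, fr_fr, sub_sub]

theorem Row.out_map (p : V) (o : Fin 4) (a : V) (d : Fin 4) (ρ : Row) :
    (ρ.map p o).out (fr p o a) (o + d) = (ρ.out a d).map p o := by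
  simp only [Row.out, Row.map, Sl.map, Sd_fr]

theorem Cert.map {L : List V} {a b : V} (h : Cert L a b) (p : V) (o : Fin 4) :
    Cert (L.map (fr p o)) (fr p o a) (fr p o b) := by
  obtain ⟨k, h1, h2, h3, h4, h5⟩ := h
  refine ⟨k, by simpa, by simp [h2], by simpa, ?_, ?_⟩
  · rw [List.getElem?_map]
    exact fun h => h4 (Option.map_injective (fr_inj p o) h)
  · rw [List.getElem?_map]
    exact fun h => h5 (Option.map_injective (fr_inj p o) h)

theorem Chord.map {L : List V} {a b : V} (h : Chord L a b) (p : V) (o : Fin 4) :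
    Chord (L.map (fr p o)) (fr p o a) (fr p o b) := by
  obtain ⟨i, h1, h2, j, h3, h4, h5⟩ := h
  exact ⟨i, by simpa, by simp [h2], j, by simpa, by simp [h4], h5⟩

theorem RowOK.map {L : List V} {a : V} {d : Fin 4} {ρ : Row} (h : RowOK L a d ρ) (p : V)
    (o : Fin 4) : RowOK (L.map (fr p o)) (fr p o a) (o + d) (ρ.map p o) := by
  obtain ⟨⟨c, h1⟩, h2, h3⟩ := h
  have e : ∀ c : Fin 4, o + (c - o) = c := fun c => add_sub_cancel o c
  refine ⟨⟨c + o, by simpa [Row.out_map, Sl.map] using h1⟩, fun c hc => ?_, fun c hc => ?_⟩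
  · exact fun hs => h2 _ hc ((Sd_fr ..).1 hs)
  · obtain ⟨h4, h5⟩ := h3 _ hc
    refine ⟨?_, fun c' => ?_⟩
    · have := h4.map p o
      rwa [fr_lft, fr_rgt, e] at this
    · rcases h5 (c' - o) with h | h | h
      · left
        rw [Row.out_map]
        exact h
      · have := h.map p o
        rw [fr_lft, fr_rgt, e] at this
        exact Or.inr (Or.inl this)
      · have := h.map p o
        rw [fr_lft, fr_rgt, e] at this
        exact Or.inr (Or.inr this)

theorem Step.map {s s' : St} {d : Fin 4} {rows : List Row} (h : Step s d rows s') (p : V)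
    (o : Fin 4) : Step (s.map p o) (o + d) (rows.map (Row.map p o)) (s'.map p o) := by
  obtain ⟨h1, h2, ⟨new, h3⟩, h4, h5, h6, h7⟩ := h
  refine ⟨?_, ?_, ⟨new.map (fr p o), ?_⟩, ?_, ?_, by simpa, ?_⟩
  · simp only [St.map, h1, fr_nxt]
  · simp only [St.map, List.length_map, ← List.map_cons, ← List.map_take, ← h2]
  · have := congrArg (List.map (Sl.map p o)) h3
    simp only [List.map_map, List.map_append] at this
    simp only [St.map, List.map_map]
    exact this
  · simp only [St.map, h4, List.filter_map, List.map_map]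
    exact List.map_congr_left fun ρ _ => (Row.out_map ..).symm
  · have := h5.map (fr_inj p o)
    simp only [List.map_map] at this ⊢
    exact this
  · intro ρ hρ
    obtain ⟨ρ', h, rfl⟩ := List.mem_map.1 hρ
    have := (h7 ρ' h).map p o
    simpa only [St.map, List.map_cons, fr_nxt] using this

end Pool.Agent.Lib.MP_627919_pr
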