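import Pool.Agent.Lib.MP_627919_pr.Geo

/-!
The abstract machine, its semantics, and the potential bound.
-/

namespace Pool.Agent.Lib.MP_627919_pr

open MeasureTheory ProbabilityTheory Function
open scoped ENNReal

/-- number of sides not in the mask -/
def fc (x : M) : ℕ :=
  (if x 0 then 0 else 1) + (if x 1 then 0 else 1) + (if x 2 then 0 else 1) + (if x 3 then 0 else 1)

/-- compiled row -/
structure CR where
  /-- factor for a free site that points -/
  a0 : ℕ
  /-- factor for a free site that does not point -/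
  a1 : ℕ
  /-- it is the left site -/
  l : Bool
  /-- it is the right site -/
  r : Bool
  /-- it is kept -/
  keep : Bool

/-- compilation of a row -/
def Row.comp (p : V) (d : Fin 4) (ρ : Row) : CR :=
  ⟨12 / fc ρ.s.x, 12 / fc ρ.s.x * fc (ρ.out p d).x, decide (ρ.s.v = lft p d),
    decide (ρ.s.v = rgt p d), ρ.keep⟩

/-- the site points to the current edge under option `(u, w)` -/
def CR.pt (u w : Bool) (ρ : CR) : Bool := (ρ.l && u) || (ρ.r && w)

/-- weight factor -/
def CR.fac (u w : Bool) (ρ : CR) (b : Bool) : ℕ :=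
  bif b then (bif ρ.pt u w then ρ.a0 else ρ.a1) else (bif ρ.pt u w then 0 else 12)

/-- weight of a transition, the missing bits being `true` -/
def wgt (u w : Bool) : List CR → List Bool → ℕ
  | [], _ => 1
  | ρ :: l, [] => ρ.fac u w true * wgt u w l []
  | ρ :: l, b :: bs => ρ.fac u w b * wgt u w l bs

/-- new bits -/
def nb (u w : Bool) : List CR → List Bool → List Bool
  | [], _ => []
  | ρ :: l, [] => bif ρ.keep then (!ρ.pt u w) :: nb u w l [] else nb u w l []
  | ρ :: l, b :: bs => bif ρ.keep then (b && !ρ.pt u w) :: nb u w l bs else nb u w l bs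

/-- value of a transition -/
def val (l : List CR) (H : List Bool → ℕ) (b : List Bool) : ℕ :=
  12 ^ (6 - l.length) * (wgt true true l b * H (nb true true l b)
    + wgt true false l b * H (nb true false l b) + wgt false true l b * H (nb false true l b))

/-- an abstract machine with a potential -/
structure Mach (σ : Type) where
  /-- state -/
  abs : σ → St
  /-- transitions -/
  nx : σ → Fin 4 → Option (List Row × σ)
  /-- potential -/
  H : σ → List Bool → ℕ
  /-- denominator -/
  den : ℕ
  /-- numerator -/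
  X : ℕ
  hnone : ∀ s d, nx s d = none → nxt (abs s).p d ∈ (abs s).path
  hsome : ∀ s d rows s', nx s d = some (rows, s') → Step (abs s) d rows (abs s')
  hH : ∀ s b, 1 ≤ H s b
  hpot : ∀ s b, b.length = (abs s).mem.length →
    den * ∑ d, ((nx s d).elim 0 fun z => val (z.1.map (Row.comp (abs s).p d)) (H z.2) b)
      ≤ X * H s b

/-- the dual edge from `p` in direction `d` is closed -/
def closed (ω : Om) (p : V) (d : Fin 4) : Prop := ω (lft p d) = d + 3 ∨ ω (rgt p d) = d + 1

/-- the event checked in one transition -/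
def Cset (p : V) (d : Fin 4) (rows : List Row) : Set Om :=
  {ω | closed ω p d ∧ ∀ ρ ∈ rows, ρ.ng (ω ρ.s.v) = false}

theorem measurableSet_coord (v : V) (P : Fin 4 → Prop) : MeasurableSet {ω : Om | P (ω v)} :=
  measurable_pi_apply v (Set.toFinite {c | P c}).measurableSet

theorem measurableSet_Cset (p : V) (d : Fin 4) (rows : List Row) :
    MeasurableSet (Cset p d rows) := by
  refine MeasurableSet.inter ((measurableSet_coord _ (· = d + 3)).union
    (measurableSet_coord _ (· = d + 1))) ?_
  have : {ω : Om | ∀ ρ ∈ rows, ρ.ng (ω ρ.s.v) = false}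
      = ⋂ ρ ∈ {ρ | ρ ∈ rows}, {ω : Om | ρ.ng (ω ρ.s.v) = false} := by
    ext ω; simp
  change MeasurableSet {ω : Om | ∀ ρ ∈ rows, ρ.ng (ω ρ.s.v) = false}
  rw [this]
  exact MeasurableSet.biInter (List.finite_toSet rows).countable fun ρ _ =>
    measurableSet_coord _ fun c => ρ.ng c = false

/-- the forgotten sites -/
def dropped (rows : List Row) : List V := (rows.filter fun ρ => !ρ.keep).map fun ρ => ρ.s.v

/-- semantics -/
noncomputable def Mach.F {σ : Type} (m : Mach σ) : List (Fin 4) → σ → Om → ℝ≥0∞
  | [], _ => fun _ => 1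
  | d :: ds, s => (m.nx s d).elim (fun _ => 0) fun z ω =>
      (Cset (m.abs s).p d z.1).indicator 1 ω * dropL (dropped z.1) (m.F ds z.2) ω

theorem Mach.measurable_F {σ : Type} (m : Mach σ) (ds : List (Fin 4)) (s : σ) :
    Measurable (m.F ds s) := by
  induction ds generalizing s with
  | nil => exact measurable_const
  | cons d ds ih =>
    rw [Mach.F]
    cases m.nx s d with
    | none => exact measurable_const
    | some z =>
      exact (measurable_one.indicator (measurableSet_Cset ..)).mul (measurable_dropL _ (ih _))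

/-- sum over all words of length `n` -/
noncomputable def sumL : ℕ → (List (Fin 4) → ℝ≥0∞) → ℝ≥0∞
  | 0, f => f []
  | n + 1, f => ∑ d, sumL n fun l => f (d :: l)

theorem sumL_mono (n : ℕ) {f g : List (Fin 4) → ℝ≥0∞} (h : ∀ l, l.length = n → f l ≤ g l) :
    sumL n f ≤ sumL n g := by
  induction n generalizing f g with
  | zero => exact h _ rfl
  | succ n ih =>
    exact Finset.sum_le_sum fun d _ => ih fun l hl => h _ (by simp [hl])

theorem sumL_add (n : ℕ) (f g : List (Fin 4) → ℝ≥0∞) :
    sumL n (fun l => f l + g l) = sumL n f + sumL n g := by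
  induction n generalizing f g with
  | zero => rfl
  | succ n ih => simp only [sumL, ih, Finset.sum_add_distrib]

theorem sumL_mul (n : ℕ) (c : ℝ≥0∞) (f : List (Fin 4) → ℝ≥0∞) :
    sumL n (fun l => c * f l) = c * sumL n f := by
  induction n generalizing f with
  | zero => rfl
  | succ n ih => simp only [sumL, ih, Finset.mul_sum]

theorem sumL_zero (n : ℕ) : sumL n (fun _ => 0) = 0 := by
  simpa using sumL_mul n 0 fun _ => 0

theorem measure_le_sumL (n : ℕ) (E : List (Fin 4) → Set Om) :
    mu {ω | ∃ l, l.length = n ∧ ω ∈ E l} ≤ sumL n fun l => mu (E l) := by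
  induction n generalizing E with
  | zero => simp [sumL]
  | succ n ih =>
    have : {ω | ∃ l, l.length = n + 1 ∧ ω ∈ E l}
        ⊆ ⋃ d, {ω | ∃ l, l.length = n ∧ ω ∈ E (d :: l)} := by
      rintro ω ⟨l, h1, h2⟩
      cases l with
      | nil => simp at h1
      | cons d l => exact Set.mem_iUnion.2 ⟨d, l, by simpa using h1, h2⟩
    refine (measure_mono this).trans ((measure_iUnion_fintype_le _ _).trans ?_)
    exact Finset.sum_le_sum fun d _ => ih fun l => E (d :: l)

/-- the sides in a mask -/
def ms (t : M) : Finset (Fin 4) := Finset.univ.filter fun c => t c = true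
/-- the sides outside a mask -/
def co (x : M) : Finset (Fin 4) := Finset.univ.filter fun c => x c = false

theorem card_co (x : M) : (co x).card = fc x := by
  rw [co, Finset.card_filter, Fin.sum_univ_four, fc]
  cases x 0 <;> cases x 1 <;> cases x 2 <;> cases x 3 <;> rfl

theorem fc_le (x : M) : fc x ≤ 4 := by
  rw [fc]
  cases x 0 <;> cases x 1 <;> cases x 2 <;> cases x 3 <;> decide

theorem wt_chain {α : Type} (pos : α → V) (f : α → ℕ) (S : V → Finset (Fin 4)) (l : List α)
    (hl : (l.map pos).Nodup) (S' : V → Finset (Fin 4)) (hoff : ∀ v, v ∉ l.map pos → S' v = S v)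
    (h : ∀ ρ ∈ l, 12 * (S' (pos ρ)).card ≤ f ρ * (S (pos ρ)).card) :
    ((12 ^ l.length : ℕ) : ℝ≥0∞) * wt S' ≤ ((l.map f).prod : ℕ) * wt S := by
  induction l generalizing S' with
  | nil =>
    have : S' = S := funext fun v => hoff v (by simp)
    simp [this]
  | cons ρ l ih =>
    rw [List.map_cons, List.nodup_cons] at hl
    have h1 := ih hl.2 (update S' (pos ρ) (S (pos ρ))) (fun v hv => by
      by_cases hv' : v = pos ρ
      · subst hv'; simp
      · rw [update_of_ne hv']; exact hoff v (by simp_all)) (fun ρ' h' => by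
      have : pos ρ' ≠ pos ρ := fun e => hl.1 (e ▸ List.mem_map_of_mem h')
      rw [update_of_ne this]; exact h ρ' (List.mem_cons_of_mem _ h'))
    have h2 := wt_update_le (update S' (pos ρ) (S (pos ρ))) (pos ρ) (S' (pos ρ)) (a := 12)
      (b := f ρ) (by rw [update_self]; exact h ρ List.mem_cons_self)
    rw [update_idem, update_eq_self] at h2
    rw [List.length_cons, List.map_cons, List.prod_cons, pow_succ]
    push_cast at h1 h2 ⊢
    calc (12 : ℝ≥0∞) ^ l.length * 12 * wt S' = 12 ^ l.length * (12 * wt S') := by ring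
      _ ≤ 12 ^ l.length * (f ρ * wt (update S' (pos ρ) (S (pos ρ)))) := by gcongr
      _ = f ρ * (12 ^ l.length * wt (update S' (pos ρ) (S (pos ρ)))) := by ring
      _ ≤ f ρ * ((List.map Nat.cast (List.map f l)).prod * wt S) := by gcongr
      _ = _ := by ring

/-- admissible boxes -/
def Adm (s : St) (β : V → Bool) (S : V → Finset (Fin 4)) : Prop :=
  (∀ z ∈ s.mem, if β z.v then S z.v = co z.x else S z.v ⊆ ms z.t) ∧
    ∀ v, v ∉ s.mem.map Sl.v → S v = Finset.univ ∧ β v = true

theorem wgt_eq (u w : Bool) (g : Row → CR) (β : V → Bool) (rows : List Row) (mem : List Sl)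
    (new : List V) (h : rows.map Row.s = mem ++ new.map fresh) (hn : ∀ v ∈ new, β v = true) :
    wgt u w (rows.map g) (mem.map fun z => β z.v)
        = (rows.map fun ρ => (g ρ).fac u w (β ρ.s.v)).prod ∧
      nb u w (rows.map g) (mem.map fun z => β z.v)
        = (rows.filter fun ρ => (g ρ).keep).map fun ρ => (β ρ.s.v && !(g ρ).pt u w) := by
  induction rows generalizing mem new with
  | nil => simp [wgt, nb]
  | cons ρ rows ih =>
    cases mem with
    | nil =>
      cases new with
      | nil => simp at h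
      | cons v new =>
        simp only [List.map_cons, List.nil_append, List.cons.injEq] at h
        have hv : β ρ.s.v = true := by rw [h.1]; exact hn v List.mem_cons_self
        have := ih [] new (by simpa using h.2) fun v hv => hn v (List.mem_cons_of_mem _ hv)
        simp only [List.map_nil] at this
        simp only [List.map_cons, List.map_nil, wgt, nb, this, hv, List.prod_cons, true_and,
          List.filter_cons]
        cases (g ρ).keep <;> simp [hv]
    | cons z mem =>
      simp only [List.map_cons, List.cons_append, List.cons.injEq] at h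
      have := ih mem new h.2 hn
      simp only [List.map_cons, wgt, nb, this, h.1, List.prod_cons, true_and,
        List.filter_cons]
      cases (g ρ).keep <;> simp [h.1]

/-- the box after a transition under option `(u, w)` -/
def rst (S : V → Finset (Fin 4)) (p : V) (d : Fin 4) (rows : List Row) (u w : Bool) (v : V) :
    Finset (Fin 4) :=
  (S v).filter fun c => ∀ ρ ∈ rows, ρ.s.v = v →
    if (ρ.comp p d).pt u w then Sd p d v c else ¬ Sd p d v c ∧ ρ.ng c = false

theorem NN_split (S : V → Finset (Fin 4)) (p : V) (d : Fin 4) (rows : List Row)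
    {G : Om → ℝ≥0∞} (hG : Measurable G) :
    NN S (fun ω => (Cset p d rows).indicator 1 ω * G ω) ≤ NN (rst S p d rows true true) G
      + NN (rst S p d rows true false) G + NN (rst S p d rows false true) G := by
  have m : ∀ T, Measurable fun ω => (box T).indicator 1 ω * G ω := fun T =>
    (measurable_ind T).mul hG
  have m2 : Measurable fun ω => (box (rst S p d rows true true)).indicator 1 ω * G ω
    + (box (rst S p d rows true false)).indicator 1 ω * G ω := (m _).add (m _)
  simp only [NN]
  rw [← lintegral_add_left (m _), ← lintegral_add_left m2]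
  refine lintegral_mono fun ω => ?_
  by_cases h1 : ω ∈ box S
  · by_cases h2 : ω ∈ Cset p d rows
    · have key : ω ∈ box (rst S p d rows (decide (ω (lft p d) = d + 3))
          (decide (ω (rgt p d) = d + 1))) := by
        intro v
        refine Finset.mem_filter.2 ⟨h1 v, ?_⟩
        rintro ρ hρ rfl
        have h3 := h2.2 ρ hρ
        have h4 : (ρ.comp p d).pt (decide (ω (lft p d) = d + 3)) (decide (ω (rgt p d) = d + 1))
            = true ↔ Sd p d ρ.s.v (ω ρ.s.v) := by
          simp only [CR.pt, Row.comp, Sd, Bool.or_eq_true, Bool.and_eq_true, decide_eq_true_eq]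
          refine or_congr (and_congr_right fun h => ?_) (and_congr_right fun h => ?_) <;> rw [h]
        split_ifs with h5
        · exact h4.1 h5
        · exact ⟨mt h4.2 h5, h3⟩
      have h3 : closed ω p d := h2.1
      simp only [Set.indicator_of_mem h1, Set.indicator_of_mem h2, Pi.one_apply, one_mul]
      by_cases h4 : ω (lft p d) = d + 3 <;> by_cases h5 : ω (rgt p d) = d + 1
      · simp only [h4, h5, decide_true] at key
        rw [Set.indicator_of_mem key, Pi.one_apply, one_mul, add_assoc]
        exact le_self_add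
      · simp only [h4, h5, decide_true, decide_false] at key
        rw [Set.indicator_of_mem key, Pi.one_apply, one_mul]
        exact le_add_self.trans le_self_add
      · simp only [h4, h5, decide_true, decide_false] at key
        rw [Set.indicator_of_mem key, Pi.one_apply, one_mul]
        exact le_add_self
      · exact absurd h3 (by simp [closed, h4, h5])
    · simp [h2]
  · simp [h1]

theorem fac_free (n k m : ℕ) (hn : n ≤ 4) (hk : k ≤ n) (hm : k ≤ m) : 12 * k ≤ 12 / n * m * n := by
  interval_cases n <;> simp <;> omega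

theorem step_opt {s s' : St} {d : Fin 4} {rows : List Row} (hs : Step s d rows s') {β : V → Bool}
    {S : V → Finset (Fin 4)} (hA : Adm s β S) (u w : Bool) :
    ∃ (κ : ℝ≥0∞) (S' : V → Finset (Fin 4)) (β' : V → Bool), Adm s' β' S' ∧
      (s'.mem.map fun z => β' z.v) = nb u w (rows.map (Row.comp s.p d)) (s.mem.map fun z => β z.v) ∧
      ((12 ^ rows.length : ℕ) : ℝ≥0∞) * (κ * wt S')
        ≤ (wgt u w (rows.map (Row.comp s.p d)) (s.mem.map fun z => β z.v) : ℕ) * wt S ∧
      ∀ f, Measurable f → NN (rst S s.p d rows u w) (dropL (dropped rows) f) = κ * NN S' f := by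
  obtain ⟨κ, hκ⟩ := NN_dropL (dropped rows) (rst S s.p d rows u w)
  obtain ⟨new, hin⟩ := hs.hin
  have hpos : (rows.map fun ρ => ρ.s.v) = s.mem.map Sl.v ++ new := by
    have := congrArg (List.map Sl.v) hin
    simp only [List.map_map, List.map_append] at this
    rw [show Sl.v ∘ fresh = id from rfl, List.map_id] at this
    exact this
  have hnew : ∀ v ∈ new, v ∉ s.mem.map Sl.v := fun v hv h =>
    List.disjoint_of_nodup_append (hpos ▸ hs.hnd) h hv
  have hinj : ∀ ρ ∈ rows, ∀ ρ' ∈ rows, ρ'.s.v = ρ.s.v → ρ' = ρ := fun ρ h ρ' h' e =>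
    List.inj_on_of_nodup_map hs.hnd h' h e
  have hrow : ∀ ρ ∈ rows, if β ρ.s.v then S ρ.s.v = co ρ.s.x else S ρ.s.v ⊆ ms ρ.s.t := by
    intro ρ hρ
    have : ρ.s ∈ s.mem ++ new.map fresh := hin ▸ List.mem_map_of_mem hρ
    rcases List.mem_append.1 this with h | h
    · exact hA.1 _ h
    · obtain ⟨v, hv, e⟩ := List.mem_map.1 h
      have := hA.2 v (hnew v hv)
      rw [← e]
      simp [fresh, this.1, this.2, co]
  have hrst : ∀ ρ ∈ rows, ∀ c, c ∈ rst S s.p d rows u w ρ.s.v ↔ c ∈ S ρ.s.v ∧
      if (ρ.comp s.p d).pt u w then Sd s.p d ρ.s.v c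
        else ¬ Sd s.p d ρ.s.v c ∧ ρ.ng c = false := by
    intro ρ hρ c
    rw [rst, Finset.mem_filter]
    refine and_congr_right fun _ => ⟨fun h => h ρ hρ rfl, fun h ρ' h' e => ?_⟩
    rwa [hinj ρ hρ ρ' h' e]
  have hoff : ∀ v, v ∉ (rows.map fun ρ => ρ.s.v) → rst S s.p d rows u w v = S v := by
    intro v hv
    refine Finset.filter_true_of_mem fun c _ ρ hρ e => absurd ?_ hv
    exact e ▸ List.mem_map_of_mem hρ
  obtain ⟨e1, e2⟩ := wgt_eq u w (Row.comp s.p d) β rows s.mem new hin
    fun v hv => (hA.2 v (hnew v hv)).2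
  have hmem : ∀ z ∈ s'.mem, ∃ ρ ∈ rows, ρ.keep = true ∧ z = ρ.out s.p d := by
    intro z hz
    rw [hs.hout] at hz
    obtain ⟨ρ, h, e⟩ := List.mem_map.1 hz
    exact ⟨ρ, (List.mem_filter.1 h).1, (List.mem_filter.1 h).2, e.symm⟩
  have hdr : ∀ ρ ∈ rows, ρ.s.v ∈ dropped rows ↔ ρ.keep = false := by
    intro ρ hρ
    simp only [dropped, List.mem_map, List.mem_filter, Bool.not_eq_eq_eq_not, Bool.not_true]
    exact ⟨fun ⟨ρ', h, e⟩ => hinj ρ hρ ρ' h.1 e ▸ h.2, fun h => ⟨ρ, ⟨hρ, h⟩, rfl⟩⟩
  refine ⟨κ, _, fun v => if v ∈ s'.mem.map Sl.v then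
    β v && !((decide (v = lft s.p d) && u) || (decide (v = rgt s.p d) && w)) else true,
    ⟨fun z hz => ?_, fun v hv => ⟨?_, if_neg hv⟩⟩, ?_, ?_, hκ⟩
  · obtain ⟨ρ, hρ, hk, rfl⟩ := hmem z hz
    have h1 : (ρ.out s.p d).v ∈ s'.mem.map Sl.v := List.mem_map_of_mem hz
    have h2 : (ρ.out s.p d).v ∉ dropped rows := fun h => by
      have := (hdr ρ hρ).1 h
      simp [hk] at this
    have h3 := hrow ρ hρ
    have h4 := hrst ρ hρ
    simp only [if_pos h1, if_neg h2]
    change if (β ρ.s.v && !(ρ.comp s.p d).pt u w) = true then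
      rst S s.p d rows u w ρ.s.v = co (ρ.out s.p d).x
      else rst S s.p d rows u w ρ.s.v ⊆ ms (ρ.out s.p d).t
    cases hb : β ρ.s.v <;> cases hp : (ρ.comp s.p d).pt u w <;>
      simp only [hb, hp, Bool.false_eq_true, if_false, if_true, Bool.not_true, Bool.not_false,
        Bool.and_true, Bool.and_false] at h3 h4 ⊢
    · intro c hc
      have := h3 ((h4 c).1 hc).1
      simp_all [ms, Row.out]
    · intro c hc
      have := h3 ((h4 c).1 hc).1
      simp_all [ms, Row.out]
    · ext c
      simp [h4, h3, co, Row.out, and_assoc]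
    · intro c hc
      have := ((h4 c).1 hc).2
      simp [ms, Row.out, this]
  · split_ifs with h
    · rfl
    · have h1 : v ∉ rows.map fun ρ => ρ.s.v := by
        intro h1
        obtain ⟨ρ, hρ, rfl⟩ := List.mem_map.1 h1
        have hk : ρ.keep = true := by simpa using mt (hdr ρ hρ).2 h
        refine hv ?_
        rw [hs.hout, List.map_map]
        exact List.mem_map.2 ⟨ρ, List.mem_filter.2 ⟨hρ, hk⟩, rfl⟩
      rw [hoff v h1]
      refine (hA.2 v fun h2 => h1 ?_).1
      rw [hpos]
      exact List.mem_append_left _ h2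
  · rw [e2]
    rw [List.map_congr_left fun z hz => if_pos (List.mem_map_of_mem (f := Sl.v) hz), hs.hout,
      List.map_map]
    rfl
  · have h1 := hκ (fun _ => 1) measurable_const
    rw [dropL_one] at h1
    rw [e1, wt, ← h1]
    refine wt_chain (fun ρ : Row => ρ.s.v) _ S rows hs.hnd _ hoff fun ρ hρ => ?_
    have h3 := hrow ρ hρ
    have h4 := hrst ρ hρ
    have h5 : (rst S s.p d rows u w ρ.s.v).card ≤ (S ρ.s.v).card :=
      Finset.card_le_card (Finset.filter_subset _ _)
    rw [CR.fac]
    cases hb : β ρ.s.v <;> cases hp : (ρ.comp s.p d).pt u w <;>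
      simp only [hb, hp, Bool.false_eq_true, if_false, if_true, cond_true, cond_false] at h3 h4 ⊢
    · omega
    · have : rst S s.p d rows u w ρ.s.v = ∅ := by
        refine Finset.eq_empty_of_forall_notMem fun c hc => ?_
        have h6 := (h4 c).1 hc
        exact (hs.hrow ρ hρ).2.1 c (by simpa [ms] using h3 h6.1) h6.2
      simp [this]
    · have h6 : rst S s.p d rows u w ρ.s.v = co (ρ.out s.p d).x := by
        ext c
        simp [h4, h3, co, Row.out, and_assoc]
      rw [h3, card_co] at h5 ⊢
      exact fac_free _ _ _ (fc_le _) h5 (by rw [h6, card_co])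
    · have h6 : (rst S s.p d rows u w ρ.s.v).card ≤ 1 := by
        refine Finset.card_le_one.2 fun a ha b hb => ?_
        have h7 := lft_ne_rgt s.p d
        rcases ((h4 a).1 ha).2 with h | h <;> rcases ((h4 b).1 hb).2 with h' | h' <;> simp_all
      rw [h3, card_co] at h5 ⊢
      have := fac_free _ _ 1 (fc_le _) h5 h6
      rwa [mul_one] at this

theorem Mach.potential {σ : Type} (m : Mach σ) (n : ℕ) (s : σ) (β : V → Bool)
    (S : V → Finset (Fin 4)) (hA : Adm (m.abs s) β S) :
    ((m.den * 12 ^ 6 : ℕ) : ℝ≥0∞) ^ n * sumL n (fun ds => NN S (m.F ds s))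
      ≤ (m.X : ℝ≥0∞) ^ n * ((m.H s ((m.abs s).mem.map fun z => β z.v) : ℕ) * wt S) := by
  induction n generalizing s β S with
  | zero =>
    simp only [pow_zero, one_mul, sumL]
    refine le_mul_of_one_le_left' ?_
    exact_mod_cast m.hH ..
  | succ n ih =>
    set b := (m.abs s).mem.map fun z => β z.v
    set Y : ℝ≥0∞ := ((m.den * 12 ^ 6 : ℕ) : ℝ≥0∞) with hY
    have key : ∀ d, Y ^ n * 12 ^ 6 * sumL n (fun ds => NN S (m.F (d :: ds) s)) ≤ m.X ^ n *
        ((((m.nx s d).elim 0 fun z =>
          val (z.1.map (Row.comp (m.abs s).p d)) (m.H z.2) b : ℕ) : ℝ≥0∞) * wt S) := by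
      intro d
      simp only [Mach.F]
      cases h : m.nx s d with
      | none => simp [NN, sumL_zero]
      | some z =>
        obtain ⟨rows, s'⟩ := z
        have hs := m.hsome s d rows s' h
        simp only [Option.elim]
        have k2 : ∀ u w, Y ^ n * 12 ^ 6 * sumL n (fun ds => NN (rst S (m.abs s).p d rows u w)
            (dropL (dropped rows) (m.F ds s'))) ≤ m.X ^ n * (((12 ^ (6 - rows.length) *
              (wgt u w (rows.map (Row.comp (m.abs s).p d)) b *
                m.H s' (nb u w (rows.map (Row.comp (m.abs s).p d)) b)) : ℕ) : ℝ≥0∞) * wt S) := by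
          intro u w
          obtain ⟨κ, S', β', h1, h2, h3, h4⟩ := step_opt hs hA u w
          have h5 := ih s' β' S' h1
          rw [h2] at h5
          simp only [h4 _ (m.measurable_F _ _), sumL_mul]
          have h6 : (12 : ℝ≥0∞) ^ 6 = 12 ^ (6 - rows.length) * 12 ^ rows.length := by
            rw [← pow_add, Nat.sub_add_cancel hs.hlen]
          rw [h6]
          push_cast at h3 ⊢
          change _ ≤ ((wgt u w _ b : ℕ) : ℝ≥0∞) * _ at h3
          change _ ≤ _ * (((m.H s' (nb u w _ b) : ℕ) : ℝ≥0∞) * _) at h5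
          generalize ((wgt u w _ b : ℕ) : ℝ≥0∞) = W at h3 ⊢
          generalize ((m.H s' (nb u w _ b) : ℕ) : ℝ≥0∞) = K at h5 ⊢
          calc _ = 12 ^ (6 - rows.length) * 12 ^ rows.length * κ *
                (Y ^ n * sumL n fun l => NN S' (m.F l s')) := by ring
            _ ≤ 12 ^ (6 - rows.length) * 12 ^ rows.length * κ * (m.X ^ n * (K * wt S')) := by
              gcongr
            _ = m.X ^ n * 12 ^ (6 - rows.length) * K * (12 ^ rows.length * (κ * wt S')) := by ring
            _ ≤ m.X ^ n * 12 ^ (6 - rows.length) * K * (W * wt S) := by gcongr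
            _ = _ := by ring
        refine (mul_le_mul_right (sumL_mono n fun ds _ => NN_split S _ d rows
          (measurable_dropL _ (m.measurable_F ds s'))) _).trans ?_
        rw [sumL_add, sumL_add, mul_add, mul_add]
        refine (add_le_add (add_le_add (k2 _ _) (k2 _ _)) (k2 _ _)).trans (le_of_eq ?_)
        rw [val, List.length_map]
        push_cast
        ring
    have h1 : ((m.den * ∑ d, ((m.nx s d).elim 0 fun z =>
        val (z.1.map (Row.comp (m.abs s).p d)) (m.H z.2) b) : ℕ) : ℝ≥0∞)
          ≤ (m.X * m.H s b : ℕ) := by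
      exact_mod_cast m.hpot s b (List.length_map _)
    rw [sumL]
    push_cast at h1
    set T : Fin 4 → ℝ≥0∞ := fun d => (((m.nx s d).elim 0 fun z =>
      val (z.1.map (Row.comp (m.abs s).p d)) (m.H z.2) b : ℕ) : ℝ≥0∞)
    calc _ = (m.den : ℝ≥0∞) *
          ∑ d, Y ^ n * 12 ^ 6 * sumL n (fun ds => NN S (m.F (d :: ds) s)) := by
          rw [← Finset.mul_sum, pow_succ, hY]
          push_cast
          ring
      _ ≤ m.den * ∑ d, m.X ^ n * (T d * wt S) := 
          mul_le_mul_right (Finset.sum_le_sum fun d _ => key d) _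
      _ = m.X ^ n * ((m.den * ∑ d, T d) * wt S) := by
          rw [← Finset.mul_sum, ← Finset.sum_mul]
          ring
      _ ≤ m.X ^ n * ((m.X * m.H s b) * wt S) := by gcongr
      _ = _ := by ring

end Pool.Agent.Lib.MP_627919_pr
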