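import Pool.Agent.Lib.MP_627919_pr.MachA

/-!
The semantics of the machine bounds the probability that a given self-avoiding dual path is
closed while all its chords are open.
-/

namespace Pool.Agent.Lib.MP_627919_pr

open MeasureTheory ProbabilityTheory Function
open scoped ENNReal

/-- the set `A` is hardest to satisfy, as a function of the value at `v`, outside `D` -/
def UpS (v : V) (A : Set Om) (D : Set (Fin 4)) : Prop :=
  ∀ ω x y, x ∉ D → update ω v x ∈ A → update ω v y ∈ A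

theorem UpS.up {v : V} {A : Set Om} {D : Set (Fin 4)} (h : UpS v A D) :
    Up v (A.indicator 1) D := by
  classical
  intro ω
  refine ⟨if ∀ y, update ω v y ∈ A then 1 else 0, fun x => ?_, fun x hx => ?_⟩
  · split_ifs with h1
    · simp [h1 x]
    · exact zero_le
  · split_ifs with h1
    · simp [h1 x]
    · exact Set.indicator_of_notMem (fun h2 => h1 fun y => h ω x y hx h2) _

theorem upS_Cset {v p : V} {d : Fin 4} {rows : List Row} {D : Set (Fin 4)}
    (h1 : ∀ c, Sd p d v c → c ∈ D) (h2 : ∀ ρ ∈ rows, ρ.s.v = v → ∀ c, ρ.ng c = false) :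
    UpS v (Cset p d rows) D := by
  rintro ω x y hx ⟨h3, h4⟩
  refine ⟨?_, fun ρ hρ => ?_⟩
  · refine h3.imp (fun h => ?_) fun h => ?_
    · by_cases e : lft p d = v
      · rw [e, update_self] at h
        exact absurd (h1 x (Or.inl ⟨e.symm, h⟩)) hx
      · rwa [update_of_ne e] at h ⊢
    · by_cases e : rgt p d = v
      · rw [e, update_self] at h
        exact absurd (h1 x (Or.inr ⟨e.symm, h⟩)) hx
      · rwa [update_of_ne e] at h ⊢
  · by_cases e : ρ.s.v = v
    · exact h2 ρ hρ e _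
    · have := h4 ρ hρ
      rwa [update_of_ne e] at this ⊢

/-- a self-avoiding dual path with `n` steps -/
structure SAP (q : ℕ → V) (δ : ℕ → Fin 4) (n : ℕ) : Prop where
  step : ∀ t < n, q (t + 1) = nxt (q t) (δ t)
  inj : ∀ i ≤ n, ∀ j ≤ n, q i = q j → i = j

/-- `L` lists the path backwards from time `t` -/
def IsP (q : ℕ → V) (t : ℕ) (L : List V) : Prop := ∀ k a, L[k]? = some a → k ≤ t ∧ a = q (t - k)

theorem IsP.cons {q : ℕ → V} {t : ℕ} {L : List V} (h : IsP q t L) :
    IsP q (t + 1) (q (t + 1) :: L) := by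
  intro k a hk
  cases k with
  | zero => simp_all
  | succ k =>
    have := h k a (by simpa using hk)
    exact ⟨by omega, by rw [this.2, Nat.add_sub_add_right]⟩

theorem IsP.take {q : ℕ → V} {t : ℕ} {L : List V} (h : IsP q t L) (m : ℕ) :
    IsP q t (L.take m) := by
  intro k a hk
  rw [List.getElem?_take] at hk
  split_ifs at hk
  exact h k a hk

variable {q : ℕ → V} {δ : ℕ → Fin 4} {n : ℕ}

theorem SAP.ends (h : SAP q δ n) {u : ℕ} (hu : u < n) {v : V} {c : Fin 4}
    (h1 : Sd (q u) (δ u) v c) :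
    (lft v c = q (u + 1) ∧ rgt v c = q u) ∨ (lft v c = q u ∧ rgt v c = q (u + 1)) := by
  rw [h.step u hu]
  exact h1.ends

theorem SAP.uniq (h : SAP q δ n) {u u' : ℕ} (hu : u < n) (hu' : u' < n) {v : V} {c : Fin 4}
    (h1 : Sd (q u) (δ u) v c) (h2 : Sd (q u') (δ u') v c) : u = u' := by
  rcases h.ends hu h1 with ⟨a, b⟩ | ⟨a, b⟩ <;> rcases h.ends hu' h2 with ⟨a', b'⟩ | ⟨a', b'⟩ <;>
  · have e1 := h.inj _ (by omega) _ (by omega) (a.symm.trans a')
    have e2 := h.inj _ (by omega) _ (by omega) (b.symm.trans b')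
    omega

theorem SAP.cert (h : SAP q δ n) {t : ℕ} (ht : t ≤ n) {L : List V} (hL : IsP q t L) {a b : V}
    (hc : Cert L a b) {u : ℕ} (hu : u < n) :
    ¬ ((a = q (u + 1) ∧ b = q u) ∨ (a = q u ∧ b = q (u + 1))) := by
  obtain ⟨k, h1, h2, h3, h4, h5⟩ := hc
  have e0 := hL k _ (List.getElem?_eq_getElem h1)
  have e1 := hL _ _ h2
  have e2 := hL _ _ (List.getElem?_eq_getElem h3)
  rw [List.getElem?_eq_getElem h1, e0.2] at h4
  rw [List.getElem?_eq_getElem h3, e2.2] at h5
  rintro (⟨rfl, rfl⟩ | ⟨rfl, rfl⟩)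
  · have := h.inj _ (by omega) _ (by omega) e1.2
    exact h5 (by congr 2; omega)
  · have := h.inj _ (by omega) _ (by omega) e1.2
    exact h4 (by congr 2; omega)

/-- a side that lies on the path and is not recorded prevents any exclusion -/
theorem SAP.ng_false (h : SAP q δ n) {t : ℕ} (ht : t ≤ n) {L : List V} (hL : IsP q t L) {p : V}
    {d : Fin 4} {ρ : Row} (hρ : RowOK L p d ρ) {u : ℕ} (hu : u < n) {e : Fin 4}
    (h1 : Sd (q u) (δ u) ρ.s.v e) (h2 : (ρ.out p d).t e = false) (c : Fin 4) :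
    ρ.ng c = false := by
  by_contra hc
  have h3 := h.ends hu h1
  rcases (hρ.2.2 c (by simpa using hc)).2 e with h4 | h4 | h4
  · simp [h2] at h4
  · exact h.cert ht hL h4 hu h3
  · exact h.cert ht hL h4 hu (by tauto)

/-- the state is truthful at time `t` -/
def Tru (q : ℕ → V) (δ : ℕ → Fin 4) (t : ℕ) (s : St) : Prop :=
  IsP q t (s.p :: s.path) ∧ ∀ z ∈ s.mem, ∀ c, z.t c = true → ∃ u < t, Sd (q u) (δ u) z.v c

theorem Tru.head {t : ℕ} {s : St} (h : Tru q δ t s) : s.p = q t := (h.1 0 _ rfl).2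

theorem Step.mem_or {s s' : St} {d : Fin 4} {rows : List Row} (hs : Step s d rows s') {ρ : Row}
    (hρ : ρ ∈ rows) : ρ.s ∈ s.mem ∨ ∀ c, ρ.s.t c = false := by
  obtain ⟨new, hin⟩ := hs.hin
  have : ρ.s ∈ s.mem ++ new.map fresh := hin ▸ List.mem_map_of_mem hρ
  refine (List.mem_append.1 this).imp_right fun h c => ?_
  obtain ⟨v, _, e⟩ := List.mem_map.1 h
  rw [← e]
  rfl

theorem Step.mem_out {s s' : St} {d : Fin 4} {rows : List Row} (hs : Step s d rows s') {z : Sl}
    (hz : z ∈ s'.mem) : ∃ ρ ∈ rows, ρ.keep = true ∧ z = ρ.out s.p d := by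
  rw [hs.hout] at hz
  obtain ⟨ρ, h, e⟩ := List.mem_map.1 hz
  exact ⟨ρ, (List.mem_filter.1 h).1, (List.mem_filter.1 h).2, e.symm⟩

theorem Tru.isP (h : SAP q δ n) {t : ℕ} (ht : t < n) {s : St} (hT : Tru q δ t s) :
    IsP q (t + 1) (nxt s.p (δ t) :: s.p :: s.path) := by
  have := hT.1.cons
  rwa [h.step t ht, ← hT.head] at this

theorem Tru.out {t : ℕ} {s s' : St} {rows : List Row} (hT : Tru q δ t s)
    (hs : Step s (δ t) rows s') {ρ : Row} (hρ : ρ ∈ rows) {c : Fin 4}
    (hc : (ρ.out s.p (δ t)).t c = true) : ∃ u < t + 1, Sd (q u) (δ u) ρ.s.v c := by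
  simp only [Row.out, Bool.or_eq_true, decide_eq_true_eq] at hc
  rcases hc with hc | hc
  · rcases hs.mem_or hρ with h | h
    · obtain ⟨u, h1, h2⟩ := hT.2 _ h c hc
      exact ⟨u, by omega, h2⟩
    · simp [h] at hc
  · exact ⟨t, by omega, hT.head ▸ hc⟩

theorem Tru.step (h : SAP q δ n) {t : ℕ} (ht : t < n) {s s' : St} {rows : List Row}
    (hT : Tru q δ t s) (hs : Step s (δ t) rows s') : Tru q δ (t + 1) s' := by
  refine ⟨?_, fun z hz c hc => ?_⟩
  · have := (hT.isP h ht).take (s'.path.length + 1)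
    rwa [List.take_succ_cons, ← hs.hpath, ← hs.hp] at this
  · obtain ⟨ρ, hρ, _, rfl⟩ := hs.mem_out hz
    exact hT.out hs hρ hc

/-- sides of `v` used by the path from time `t` on -/
def PD (q : ℕ → V) (δ : ℕ → Fin 4) (n : ℕ) (v : V) (t : ℕ) : Set (Fin 4) :=
  {c | ∃ u, t ≤ u ∧ u < n ∧ Sd (q u) (δ u) v c}

theorem PD_succ (v : V) (t : ℕ) : PD q δ n v (t + 1) ⊆ PD q δ n v t :=
  fun _ ⟨u, h1, h2⟩ => ⟨u, by omega, h2⟩

theorem Mach.up_future {σ : Type} (m : Mach σ) (h : SAP q δ n) (k t : ℕ) (hk : t + k = n) (s : σ)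
    (hT : Tru q δ t (m.abs s)) {v : V} {e : Fin 4} {u : ℕ} (hu : u < t)
    (he : Sd (q u) (δ u) v e) (hm : ∀ z ∈ (m.abs s).mem, z.v = v → z.t e = false) :
    Up v (m.F ((List.range' t k).map δ) s) (PD q δ n v t) := by
  induction k generalizing t s with
  | zero => exact Inv.up (fun _ _ => rfl) _
  | succ k ih =>
    rw [List.range'_succ, List.map_cons, Mach.F]
    cases hn : m.nx s (δ t) with
    | none => exact Inv.up (fun _ _ => rfl) _
    | some z =>
      obtain ⟨rows, s'⟩ := z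
      have hs := m.hsome s _ rows s' hn
      have h1 : ∀ ρ ∈ rows, ρ.s.v = v → (ρ.out (m.abs s).p (δ t)).t e = false := by
        rintro ρ hρ rfl
        simp only [Row.out, Bool.or_eq_false_iff, decide_eq_false_iff_not]
        refine ⟨(hs.mem_or hρ).elim (fun h2 => hm _ h2 rfl) fun h2 => h2 e, fun h2 => ?_⟩
        rw [hT.head] at h2
        have := h.uniq (by omega) (by omega) he h2
        omega
      refine Up.mul (upS_Cset (D := PD q δ n v t) (fun c hc => ⟨t, le_rfl, by omega, hT.head ▸ hc⟩)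
        fun ρ hρ hv => ?_).up (Up.dropL (Up.mono ?_ (PD_succ v t)) _)
      · exact h.ng_false (t := t + 1) (by omega) (hT.isP h (by omega)) (hs.hrow ρ hρ)
          (u := u) (by omega) (hv ▸ he) (h1 ρ hρ hv)
      · refine ih (t + 1) (by omega) s' (hT.step h (by omega) hs) (by omega) fun z hz hv => ?_
        obtain ⟨ρ, hρ, _, rfl⟩ := hs.mem_out hz
        exact h1 ρ hρ hv

/-- all chords of the path are open -/
def ChO (q : ℕ → V) (n : ℕ) (ω : Om) : Prop :=
  ∀ v, ∀ i ≤ n, ∀ j ≤ n, lft v (ω v) = q i → rgt v (ω v) = q j → ¬ (i + 1 < j ∨ j + 1 < i)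

theorem Mach.corr_bound {σ : Type} (m : Mach σ) (h : SAP q δ n) (k t : ℕ) (hk : t + k = n)
    (s : σ) (hT : Tru q δ t (m.abs s)) (P : Set Om) (mP : MeasurableSet P)
    (hP : ∀ v, UpS v P (PD q δ n v t)ᶜ) :
    mu (P ∩ {ω | (∀ u, t ≤ u → u < n → closed ω (q u) (δ u)) ∧ ChO q n ω})
      ≤ ∫⁻ ω, P.indicator 1 ω * m.F ((List.range' t k).map δ) s ω ∂mu := by
  induction k generalizing t s P with
  | zero =>
    simp only [List.range'_zero, List.map_nil, Mach.F, mul_one]
    rw [lintegral_indicator_one mP]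
    exact measure_mono Set.inter_subset_left
  | succ k ih =>
    have ht : t < n := by omega
    have hL := hT.isP h ht
    rw [List.range'_succ, List.map_cons, Mach.F]
    cases hn : m.nx s (δ t) with
    | none =>
      obtain ⟨i, hi, e⟩ := List.getElem_of_mem (m.hnone s _ hn)
      have e1 := hL (i + 2) _ (List.getElem?_eq_getElem hi)
      have e2 := (hL 0 _ rfl).2
      have := h.inj _ (by omega) _ (by omega) ((e2.symm.trans e.symm).trans e1.2)
      omega
    | some z =>
      obtain ⟨rows, s'⟩ := z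
      have hs := m.hsome s _ rows s' hn
      have hT' := hT.step h ht hs
      have mP' := mP.inter (measurableSet_Cset (m.abs s).p (δ t) rows)
      have hP' : ∀ v, UpS v (P ∩ Cset (m.abs s).p (δ t) rows) (PD q δ n v (t + 1))ᶜ := by
        intro v ω x y hx hxm
        have hx' : x ∈ PD q δ n v (t + 1) := not_not.1 hx
        obtain ⟨u, h1, h2, h3⟩ := hx'
        refine ⟨hP v ω x y (not_not.2 (PD_succ v t (not_not.1 hx))) hxm.1, ?_⟩
        refine upS_Cset (fun c hc => ?_) (fun ρ hρ hv => ?_) ω x y hx hxm.2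
        · rintro ⟨u', h4, h5, h6⟩
          rw [hT.head] at hc
          have := h.uniq ht h5 hc h6
          omega
        · refine h.ng_false (t := t + 1) (by omega) hL (hs.hrow ρ hρ) h2 (hv ▸ h3) ?_
          by_contra h4
          obtain ⟨u', h5, h6⟩ := hT.out hs hρ (by simpa using h4)
          have := h.uniq (by omega) h2 h6 (hv ▸ h3)
          omega
      refine le_trans (measure_mono ?_) ((ih (t + 1) (by omega) s' hT' _ mP' hP').trans ?_)
      · rintro ω ⟨h1, h2, h3⟩
        refine ⟨⟨h1, hT.head ▸ h2 t le_rfl ht, fun ρ hρ => ?_⟩,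
          fun u h4 h5 => h2 u (by omega) h5, h3⟩
        by_contra h4
        obtain ⟨i, -, h5, j, -, h6, h7⟩ := ((hs.hrow ρ hρ).2.2 _ (by simpa using h4)).1
        have e1 := hL _ _ h5
        have e2 := hL _ _ h6
        exact h3 ρ.s.v _ (by omega) _ (by omega) e1.2 e2.2 (by omega)
      · refine (corrL (fun v => PD q δ n v (t + 1)) (measurable_one.indicator mP')
          (m.measurable_F _ _) (dropped rows) (fun v _ => (hP' v).up) fun v hv => ?_).trans
          (le_of_eq (lintegral_congr fun ω => ?_))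
        · obtain ⟨ρ, hρ, rfl⟩ := List.mem_map.1 hv
          obtain ⟨hρ, hk'⟩ := List.mem_filter.1 hρ
          obtain ⟨e, he⟩ := (hs.hrow ρ hρ).1
          obtain ⟨u, h1, h2⟩ := hT.out hs hρ he
          refine m.up_future h k (t + 1) (by omega) s' hT' h1 h2 fun z hz hv => ?_
          obtain ⟨ρ', hρ', hk2, rfl⟩ := hs.mem_out hz
          have : ρ' = ρ := List.inj_on_of_nodup_map hs.hnd hρ' hρ hv
          simp_all
        · simp only [Option.elim, Set.inter_indicator_one, Pi.mul_apply, mul_assoc]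

/-- the event that a geodesic closed dual path with `n` steps starts at `p` -/
def Geod (p : V) (n : ℕ) : Set Om :=
  {ω | ∃ q δ, q 0 = p ∧ SAP q δ n ∧ (∀ u < n, closed ω (q u) (δ u)) ∧ ChO q n ω}

theorem SAP.congr {q' : ℕ → V} {δ' : ℕ → Fin 4} (h : SAP q δ n) (h' : SAP q' δ' n)
    (h0 : q 0 = q' 0) (hδ : ∀ u < n, δ u = δ' u) : ∀ u ≤ n, q u = q' u := by
  intro u hu
  induction u with
  | zero => exact h0
  | succ u ih => rw [h.step u hu, h'.step u hu, ih (by omega), hδ u hu]

theorem Mach.geod_bound {σ : Type} (m : Mach σ) (s : σ) (h1 : (m.abs s).path = [])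
    (h2 : (m.abs s).mem = []) (n : ℕ) :
    ((m.den * 12 ^ 6 : ℕ) : ℝ≥0∞) ^ n * mu (Geod (m.abs s).p n)
      ≤ (m.X : ℝ≥0∞) ^ n * (m.H s [] : ℕ) := by
  have hA := m.potential n s (fun _ => true) (fun _ => Finset.univ) ⟨by simp [h2], by simp⟩
  rw [h2, wt_univ, mul_one] at hA
  refine le_trans (mul_le_mul_right ?_ _) hA
  set E : List (Fin 4) → Set Om := fun l => {ω | ∃ q δ, l = (List.range' 0 n).map δ ∧
    q 0 = (m.abs s).p ∧ SAP q δ n ∧ (∀ u < n, closed ω (q u) (δ u)) ∧ ChO q n ω}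
  have h3 : Geod (m.abs s).p n ⊆ {ω | ∃ l, l.length = n ∧ ω ∈ E l} := by
    rintro ω ⟨q, δ, h⟩
    exact ⟨_, by simp, q, δ, rfl, h⟩
  refine (measure_mono h3).trans ((measure_le_sumL n E).trans (sumL_mono n fun l _ => ?_))
  rcases (E l).eq_empty_or_nonempty with h | ⟨ω0, q, δ, rfl, h4, h5, -⟩
  · simp [h]
  · have hT : Tru q δ 0 (m.abs s) := by
      refine ⟨fun k a hk => ?_, by simp [h2]⟩
      rw [h1] at hk
      cases k with
      | zero => simp_all
      | succ k => simp at hk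
    have := m.corr_bound h5 n 0 (by omega) s hT Set.univ MeasurableSet.univ
      fun _ _ _ _ _ _ => trivial
    simp only [Set.univ_inter, Set.indicator_univ, Pi.one_apply, one_mul] at this
    rw [NN_univ]
    refine le_trans (measure_mono ?_) this
    rintro ω ⟨q', δ', e, h6, h7, h8, h9⟩
    have hδ : ∀ u < n, δ u = δ' u := fun u hu =>
      List.map_inj_left.1 e u (List.mem_range'_1.2 (by omega))
    have hq := h5.congr h7 (h4.trans h6.symm) hδ
    refine ⟨fun u _ hu => ?_, fun v i hi j hj => ?_⟩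
    · rw [hq u hu.le, hδ u hu]
      exact h8 u hu
    · rw [hq i hi, hq j hj]
      exact h9 v i hi j hj

end Pool.Agent.Lib.MP_627919_pr
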