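import Pool.Agent.Lib.MP_627919_pr.MachB

/-!
The contour argument: if the open clusters of all points of a segment are finite, a long
geodesic of the closed dual graph starts to the right of the segment.
-/

namespace Pool.Agent.Lib.MP_627919_pr

open Relation

/-- the closed dual graph -/
def Gd (ω : Om) : SimpleGraph V :=
  SimpleGraph.fromRel fun a b => ∃ v, lft v (ω v) = a ∧ rgt v (ω v) = b

theorem Gd_adj (ω : Om) (v : V) : (Gd ω).Adj (lft v (ω v)) (rgt v (ω v)) :=
  (SimpleGraph.fromRel_adj ..).2 ⟨lft_ne_rgt _ _, Or.inl ⟨v, rfl, rfl⟩⟩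

theorem adj_dir {ω : Om} {a b : V} (h : (Gd ω).Adj a b) : ∃ d, b = nxt a d ∧ closed ω a d := by
  have e1 : ∀ (v : V) (c : Fin 4), rgt v c = nxt (lft v c) (c + 3) ∧ rgt (lft v c) (c + 3) = v ∧
      lft v c = nxt (rgt v c) (c + 1) ∧ lft (rgt v c) (c + 1) = v := by
    rintro ⟨x, y⟩ c
    fin_cases c <;> simp [lft, rgt, nxt, ev]
  have e2 : ∀ c : Fin 4, c = c + 3 + 1 ∧ c = c + 1 + 3 := by decide
  rcases ((SimpleGraph.fromRel_adj ..).1 h).2 with ⟨v, rfl, rfl⟩ | ⟨v, rfl, rfl⟩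
  · exact ⟨ω v + 3, (e1 v _).1, Or.inr (by rw [(e1 v _).2.1]; exact (e2 _).1)⟩
  · exact ⟨ω v + 1, (e1 v _).2.2.1, Or.inl (by rw [(e1 v _).2.2.2]; exact (e2 _).2)⟩

theorem geod_of_reach {ω : Om} {a b : V} (h : (Gd ω).Reachable a b) {n : ℕ}
    (hn : b.1 + 2 * n ≤ a.1) : ω ∈ Geod a n := by
  obtain ⟨p, hp⟩ := h.exists_walk_length_eq_dist
  have hadj : ∀ i, ∃ d, i < p.length → p.getVert (i + 1) = nxt (p.getVert i) d ∧
      closed ω (p.getVert i) d := by
    intro i
    by_cases hi : i < p.length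
    · obtain ⟨d, hd⟩ := adj_dir (p.adj_getVert_succ hi)
      exact ⟨d, fun _ => hd⟩
    · exact ⟨0, fun h => absurd h hi⟩
  choose δ hδ using hadj
  have h1 : ∀ k i, i + k ≤ p.length →
      (Gd ω).dist a (p.getVert (i + k)) ≤ (Gd ω).dist a (p.getVert i) + k := by
    intro k i hk
    induction k with
    | zero => exact le_rfl
    | succ k ih =>
      have h2 := ih (by omega)
      have h3 := (p.adj_getVert_succ (i := i + k) (by omega)).diff_dist_adj (u := a)
      rw [← add_assoc]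
      omega
  have h2 : ∀ i ≤ p.length, (Gd ω).dist a (p.getVert i) = i := by
    intro i hi
    have h3 := h1 i 0 (by omega)
    have h4 := h1 (p.length - i) i (by omega)
    rw [Nat.add_sub_cancel' hi, p.getVert_length, ← hp] at h4
    rw [p.getVert_zero, SimpleGraph.dist_self, zero_add] at h3
    omega
  have h3 : ∀ i ≤ p.length, a.1 ≤ (p.getVert i).1 + 2 * i := by
    intro i hi
    induction i with
    | zero => simp
    | succ i ih =>
      have h4 := ih (by omega)
      rw [(hδ i hi).1]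
      generalize δ i = d
      fin_cases d <;> simp [nxt, ev] <;> omega
  have h4 : n ≤ p.length := by
    have := h3 _ le_rfl
    rw [p.getVert_length] at this
    omega
  refine ⟨p.getVert, δ, p.getVert_zero, ⟨fun t ht => (hδ t (by omega)).1, fun i hi j hj e => ?_⟩,
    fun u hu => (hδ u (by omega)).2, fun v i hi j hj e1 e2 => ?_⟩
  · rw [← h2 i (by omega), e, h2 j (by omega)]
  · have h5 := (Gd_adj ω v).diff_dist_adj (u := a)
    rw [e1, e2, h2 i (by omega), h2 j (by omega)] at h5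
    omega

/-- position of a lattice point in doubled coordinates -/
def dbl (a : V) : V := (2 * a.1 + 1, 2 * a.2 + 1)

/-- open edges -/
def Op (ω : Om) (a b : V) : Prop := ∃ c, b = a + ev c ∧ ω (dbl a) ≠ c ∧ ω (dbl b) ≠ c + 2

theorem adj_of_boundary {ω : Om} {A : Set V} (hA : ∀ a ∈ A, ∀ b, Op ω a b → b ∈ A) (a : V)
    (c : Fin 4) (h : ¬ (a ∈ A ↔ a + ev c ∈ A)) : (Gd ω).Adj (lft (dbl a) c) (rgt (dbl a) c) := by
  have e1 : lft (dbl (a + ev c)) (c + 2) = rgt (dbl a) c ∧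
      rgt (dbl (a + ev c)) (c + 2) = lft (dbl a) c ∧ a = a + ev c + ev (c + 2) := by
    obtain ⟨x, y⟩ := a
    fin_cases c <;> simp [lft, rgt, dbl, ev] <;> omega
  have e2 : ∀ c : Fin 4, c + 2 + 2 = c := by decide
  by_cases h1 : ω (dbl a) = c
  · exact h1 ▸ Gd_adj ω (dbl a)
  · by_cases h2 : ω (dbl (a + ev c)) = c + 2
    · have := Gd_adj ω (dbl (a + ev c))
      rw [h2, e1.1, e1.2.1] at this
      exact this.symm
    · exact absurd ⟨fun h3 => hA _ h3 _ ⟨c, rfl, h1, h2⟩,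
        fun h3 => hA _ h3 _ ⟨c + 2, e1.2.2, h2, by rwa [e2]⟩⟩ h

theorem parity {f g : V → ZMod 2} {R : ℕ} (hf : ∀ x y : ℤ, (R : ℤ) ≤ |x| ∨ (R : ℤ) ≤ y → f (x, y) = 0)
    (hh : ∀ x y, g (x, y) * (f (x, y) - f (x, y - 1)) = g (x + 1, y) * (f (x, y) - f (x, y - 1)))
    (hv : ∀ x y, g (x, y) * (f (x, y) - f (x - 1, y)) = g (x, y + 1) * (f (x, y) - f (x - 1, y)))
    (h0 : ∀ x, g (x, 1) * (f (x, 0) - f (x - 1, 0)) = f (min x 0, 0) - f (min (x - 1) 0, 0)) :
    f (0, 0) = 0 := by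
  set T : ℤ → ZMod 2 := fun y => ∑ i ∈ Finset.range (2 * R + 1),
    g (i - R, y + 1) * (f (i - R, y) - f (i - R - 1, y)) with hT
  have h1 : ∀ y, T y = T (y - 1) := by
    intro y
    have := Finset.sum_range_sub (fun i : ℕ => g (i - R - 1, y) *
      (f (i - R - 1, y) - f (i - R - 1, y - 1))) (2 * R + 1)
    rw [hf _ _ (Or.inl (by rw [le_abs]; omega)), hf _ _ (Or.inl (by rw [le_abs]; omega)),
      hf _ _ (Or.inl (by rw [le_abs]; omega)), hf _ _ (Or.inl (by rw [le_abs]; omega))] at this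
    simp only [sub_self, mul_zero] at this
    rw [← sub_eq_zero, hT, ← Finset.sum_sub_distrib, ← this]
    refine Finset.sum_congr rfl fun i _ => ?_
    have e : ((i + 1 : ℕ) : ℤ) - R - 1 = i - R := by push_cast; ring
    rw [e, ← hv, hh (i - R - 1), sub_add_cancel, sub_add_cancel]
    ring
  have h2 : ∀ k : ℕ, T (R - k) = 0 := by
    intro k
    induction k with
    | zero =>
      refine Finset.sum_eq_zero fun i _ => ?_
      rw [hf _ _ (Or.inr (by omega)), hf _ _ (Or.inr (by omega)), sub_self, mul_zero]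
    | succ k ih =>
      rw [h1] at ih
      rw [← ih]
      congr 1
      push_cast
      ring
  have h3 := h2 R
  have h4 := Finset.sum_range_sub (fun i : ℕ => f (min ((i : ℤ) - R - 1) 0, 0)) (2 * R + 1)
  rw [min_eq_right (by omega), hf (min _ _) _ (Or.inl (by rw [le_abs]; omega)), sub_zero] at h4
  rw [← h4, ← h3, hT, sub_self]
  refine Finset.sum_congr rfl fun i _ => ?_
  have e : ((i + 1 : ℕ) : ℤ) - R - 1 = i - R := by push_cast; ring
  rw [e, zero_add, h0]

theorem peierls (ω : Om) (N : ℕ)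
    (hfin : ∀ i ≤ N, {b | ReflTransGen (Op ω) ((i : ℤ), 0) b}.Finite) :
    ∃ k : ℕ, ω ∈ Geod (2 * (k + (N + 1) : ℕ), 2) (k + (N + 1)) := by
  classical
  by_contra! hcon
  set A : Set V := ⋃ i ∈ {i | i ≤ N}, {b | ReflTransGen (Op ω) ((i : ℤ), 0) b} with hAdef
  have hAf : A.Finite := (Set.finite_le_nat N).biUnion hfin
  have hA : ∀ a ∈ A, ∀ b, Op ω a b → b ∈ A := by
    intro a ha b hb
    obtain ⟨i, hi, h⟩ := Set.mem_iUnion₂.1 ha
    exact Set.mem_iUnion₂.2 ⟨i, hi, ReflTransGen.tail h hb⟩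
  have hseg : ∀ x : ℤ, 0 ≤ x → x ≤ N → (x, 0) ∈ A := by
    intro x h1 h2
    lift x to ℕ using h1
    exact Set.mem_iUnion₂.2 ⟨x, by exact_mod_cast h2, ReflTransGen.refl⟩
  obtain ⟨R, hR⟩ := (hAf.image fun a => a.1.natAbs + a.2.natAbs).bddAbove
  set W : V → Prop := fun w => ∃ x ≤ (0 : ℤ), (Gd ω).Reachable (2 * w.1, 2 * w.2) (2 * x, 2)
    with hW
  have hWa : ∀ w w' : V, (Gd ω).Adj (2 * w.1, 2 * w.2) (2 * w'.1, 2 * w'.2) → (W w ↔ W w') :=
    fun w w' h => ⟨fun ⟨x, h1, h2⟩ => ⟨x, h1, h.symm.reachable.trans h2⟩,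
      fun ⟨x, h1, h2⟩ => ⟨x, h1, h.reachable.trans h2⟩⟩
  have key := parity (f := fun a => if a ∈ A then 1 else 0) (g := fun w => if W w then 1 else 0)
    (R := R + 1) ?_ ?_ ?_ ?_
  · simp [hseg 0 le_rfl (by omega)] at key
  · intro x y h
    refine if_neg fun h1 => ?_
    have := hR (Set.mem_image_of_mem _ h1)
    simp only [le_abs] at this h
    omega
  · intro x y
    by_cases h : (x, y - 1) ∈ A ↔ (x, y) ∈ A
    · simp [h]
    · have := adj_of_boundary hA (x, y - 1) 1 (by simpa [ev] using h)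
      have h2 : W (x, y) ↔ W (x + 1, y) := hWa _ _ (by
        convert this using 1 <;> simp [lft, rgt, dbl, ev] <;> omega)
      simp only [h2]
  · intro x y
    by_cases h : (x - 1, y) ∈ A ↔ (x, y) ∈ A
    · simp [h]
    · have := adj_of_boundary hA (x - 1, y) 0 (by simpa [ev] using h)
      have h2 : W (x, y) ↔ W (x, y + 1) := hWa _ _ (by
        convert this.symm using 1 <;> simp [lft, rgt, dbl, ev] <;> omega)
      simp only [h2]
  · intro x
    by_cases h1 : x ≤ 0
    · have : W (x, 1) := ⟨x, h1, by simp⟩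
      simp only [if_pos this, one_mul, min_eq_left h1, min_eq_left (show x - 1 ≤ 0 by omega)]
    · rw [min_eq_right (by omega), min_eq_right (by omega), sub_self]
      by_cases h2 : x ≤ N
      · simp [hseg x (by omega) h2, hseg (x - 1) (by omega) (by omega)]
      · have : ¬ W (x, 1) := by
          rintro ⟨x', h3, h4⟩
          obtain ⟨k, rfl⟩ : ∃ k : ℕ, x = (k + (N + 1) : ℕ) := ⟨(x - (N + 1)).toNat, by omega⟩
          exact hcon k (geod_of_reach h4 (by simp only; omega))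
        simp [this]

end Pool.Agent.Lib.MP_627919_pr
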