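import Pool.Agent.Lib.MP_627919_pr.Defs
import Pool.Agent.Lib.MP_627919_pr.Peierls
import Pool.Agent.Lib.MP_627919_pr.Cert0
import Pool.Agent.Lib.MP_627919_pr.Cert1
import Pool.Agent.Lib.MP_627919_pr.Cert2
import Pool.Agent.Lib.MP_627919_pr.Cert3

/-!
Conclusion.
-/

namespace Pool.Agent.Lib.MP_627919_pr

open MeasureTheory ProbabilityTheory Relation Filter Topology
open scoped ENNReal

theorem chk_all : ∀ i < 824, chkS (tab i) = true := by
  intro i hi
  by_contra h
  have h0 := mt (cert0 i) h
  have h1 := mt (cert1 i) h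
  have h2 := mt (cert2 i) h
  have h3 := mt (cert3 i) h
  clear h
  omega

theorem geod_le (p : V) (n : ℕ) : mu (Geod p n) ≤ 44979 * (9998 / 10000 : ℝ≥0∞) ^ n := by
  have h1 : (gst (tab 0)).path = [] := by decide +kernel
  have h2 : (gst (tab 0)).mem = [] := by decide +kernel
  have h3 : gH (tab 0) [] = 44979 := by decide +kernel
  have e1 : ∀ s, (mach chk_all).abs s = (gst (tab s.1)).map s.2.1 s.2.2 := fun _ => rfl
  have e2 : ∀ s, (mach chk_all).H s = gH (tab s.1) := fun _ => rfl
  have e3 : (mach chk_all).den = 10000 := rfl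
  have e4 : (mach chk_all).X = 29853868032 := rfl
  have e5 : ∀ k, ((gst k).map p 0).p = p := fun _ => fr_zero p 0
  have := (mach chk_all).geod_bound (⟨0, by norm_num⟩, p, 0)
    (by simp only [e1, St.map, h1, List.map_nil]) (by simp only [e1, St.map, h2, List.map_nil]) n
  simp only [e1, e2, e3, e4, e5, h3] at this
  have h4 : ((29853868032 : ℕ) : ℝ≥0∞) = ((10000 * 12 ^ 6 : ℕ) : ℝ≥0∞) * (9998 / 10000) := by
    push_cast
    rw [show (29859840000 : ℝ≥0∞) = 2985984 * 10000 by norm_num, mul_assoc,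
      ENNReal.mul_div_cancel (by norm_num) (by norm_num)]
    norm_num
  rw [h4, mul_pow, mul_assoc, ENNReal.mul_le_mul_iff_right (by positivity) (by finiteness),
    mul_comm] at this
  exact_mod_cast this

theorem exists_cluster :
    ¬ ∀ i : ℕ, mu {ω | {b | ReflTransGen (Op ω) ((i : ℤ), 0) b}.Infinite} = 0 := by
  intro h
  set f : ℕ → ℝ≥0∞ := fun n => mu (Geod (2 * (n : ℤ), 2) n) with hf
  have h1 : ∑' n, f n ≠ ⊤ := by
    refine ne_top_of_le_ne_top ?_ (ENNReal.tsum_le_tsum fun n => geod_le _ n)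
    rw [ENNReal.tsum_mul_left, ENNReal.tsum_geometric]
    refine ENNReal.mul_ne_top (by norm_num) (ENNReal.inv_ne_top.2 (tsub_pos_iff_lt.2 ?_).ne')
    rw [ENNReal.div_lt_iff (by norm_num) (by norm_num)]
    norm_num
  obtain ⟨N, hN⟩ := (((ENNReal.tendsto_sum_nat_add f h1).comp (tendsto_add_atTop_nat 1)).eventually
    (gt_mem_nhds zero_lt_one)).exists
  have h2 : Set.univ ⊆ (⋃ i : ℕ, {ω | {b | ReflTransGen (Op ω) ((i : ℤ), 0) b}.Infinite}) ∪
      ⋃ k : ℕ, Geod (2 * (k + (N + 1) : ℕ), 2) (k + (N + 1)) := by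
    intro ω _
    by_cases h3 : ∀ i ≤ N, {b | ReflTransGen (Op ω) ((i : ℤ), 0) b}.Finite
    · exact Or.inr (Set.mem_iUnion.2 (peierls ω N h3))
    · push Not at h3
      obtain ⟨i, -, h4⟩ := h3
      exact Or.inl (Set.mem_iUnion.2 ⟨i, h4⟩)
  have h3 := (measure_mono (μ := mu) h2).trans (measure_union_le _ _)
  rw [measure_iUnion_null h, zero_add, measure_univ] at h3
  exact absurd (h3.trans (measure_iUnion_le _)) (not_le.2 hN)

theorem unif_map_inj {β : Type*} [MeasurableSpace β] [MeasurableSingletonClass β]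
    {g : Fin 4 → β} (hg : Function.Injective g) :
    (uniformOn (Set.univ : Set (Fin 4))).map g = uniformOn (Set.range g) := by
  ext s hs
  have h1 : MeasurableSet (Set.range g) := (Set.finite_range g).measurableSet
  rw [Measure.map_apply (measurable_of_countable g) hs, uniformOn, uniformOn,
    cond_apply MeasurableSet.univ, cond_apply h1, Set.univ_inter,
    Measure.count_apply MeasurableSet.univ, Measure.count_apply h1,
    Measure.count_apply (h1.inter hs), Measure.count_apply (Set.toFinite _).measurableSet,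
    ← Set.image_preimage_eq_range_inter, hg.encard_image, ← Set.image_univ, hg.encard_image]

/-- a unit vector as a function -/
def nv (x : Fin 2 → ℤ) (c : Fin 4) : Fin 2 → ℤ := ![x 0 + (ev c).1, x 1 + (ev c).2]

theorem nv_inj (x : Fin 2 → ℤ) : Function.Injective (nv x) := by
  intro c c' h
  have h0 := congrFun h 0
  have h1 := congrFun h 1
  fin_cases c <;> fin_cases c' <;> simp [nv, ev] at h0 h1 ⊢

theorem nbrs_eq (x : Fin 2 → ℤ) : nbrs x = Set.range (nv x) := by
  ext y
  simp only [nbrs, Fin.sum_univ_two, Set.mem_ofPred_eq, Set.mem_range, funext_iff,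
    Fin.forall_fin_two, Fin.exists_fin_succ, nv, ev]
  simp [abs_eq_max_neg]
  omega

/-- the set chosen at `x` when direction `c` is omitted -/
def ch (x : Fin 2 → ℤ) (c : Fin 4) : Set (Fin 2 → ℤ) := nbrs x \ {nv x c}

theorem ch_inj (x : Fin 2 → ℤ) : Function.Injective (ch x) := by
  intro c c' h
  by_contra hne
  have : nv x c ∈ ch x c' := ⟨nbrs_eq x ▸ Set.mem_range_self c, fun e => hne (nv_inj x e)⟩
  rw [← h] at this
  exact this.2 rfl

theorem range_ch (x : Fin 2 → ℤ) : Set.range (ch x) = {s | s ⊆ nbrs x ∧ s.ncard = 3} := by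
  have h1 : (nbrs x).ncard = 4 := by
    rw [nbrs_eq, Set.ncard_range_of_injective (nv_inj x)]
    simp
  have h2 : (nbrs x).Finite := nbrs_eq x ▸ Set.finite_range _
  have h3 : ∀ c, (ch x c).ncard = 3 := fun c => by
    rw [ch, Set.ncard_sdiff_singleton_of_mem (nbrs_eq x ▸ Set.mem_range_self c), h1]
  ext s
  refine ⟨?_, fun ⟨h4, h5⟩ => ?_⟩
  · rintro ⟨c, rfl⟩
    exact ⟨Set.sdiff_subset, h3 c⟩
  · obtain ⟨y, h6, h7⟩ := Set.exists_mem_notMem_of_ncard_lt_ncard (s := s) (t := nbrs x)
      (by omega) (h2.subset h4)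
    rw [nbrs_eq] at h6
    obtain ⟨c, rfl⟩ := h6
    refine ⟨c, (Set.eq_of_subset_of_ncard_le ?_ ((h3 c).trans h5.symm).le (h2.subset Set.sdiff_subset)).symm⟩
    exact fun z hz => ⟨h4 hz, fun e => h7 (e ▸ hz)⟩

theorem law_eq (i : ℤ) :
    mu.map (fun ω x => ch x (ω (dbl (x 0 + i, x 1)))) = law 3 2 := by
  have hj : Function.Injective fun x : Fin 2 → ℤ => dbl (x 0 + i, x 1) := by
    intro x y h
    simp only [dbl, Prod.mk.injEq] at h
    funext k
    fin_cases k <;> simp <;> omega
  have h1 := Measure.map_infinitePi_infinitePi_of_inj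
    (P := fun _ : V => uniformOn (Set.univ : Set (Fin 4))) hj
  have h2 := Measure.infinitePi_map_pi
    (fun _ : Fin 2 → ℤ => uniformOn (Set.univ : Set (Fin 4))) (f := ch)
    fun x => measurable_of_countable _
  simp only [unif_map_inj (ch_inj _), range_ch] at h2
  rw [law, ← h2, ← h1, Measure.map_map, mu]
  · rfl
  · exact measurable_pi_lambda _ fun x =>
      (measurable_of_countable (ch x)).comp (measurable_pi_apply x)
  · fun_prop

theorem measurable_T (i : ℤ) :
    Measurable fun (ω : Om) (x : Fin 2 → ℤ) => ch x (ω (dbl (x 0 + i, x 1))) :=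
  measurable_pi_lambda _ fun x => (measurable_of_countable (ch x)).comp (measurable_pi_apply _)

theorem isProb_law : IsProbabilityMeasure (law 3 2) :=
  law_eq 0 ▸ Measure.isProbabilityMeasure_map (measurable_T 0).aemeasurable

theorem measurableSet_perc (d : ℕ) : MeasurableSet (Perc d) := by
  have h1 : ∀ (l : List (Fin d → ℤ)) (a : Fin d → ℤ),
      Measurable fun S => List.IsChain (BAdj S) (a :: l) := by
    intro l
    induction l with
    | nil => simp
    | cons b l ih =>
      intro a
      simp only [List.isChain_cons_cons, BAdj]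
      exact (measurable_const.and (((measurable_set_mem b).comp (measurable_pi_apply a)).and
        ((measurable_set_mem a).comp (measurable_pi_apply b)))).and (ih b)
  have h2 : ∀ y, Measurable fun S => ReflTransGen (BAdj S) (0 : Fin d → ℤ) y := by
    intro y
    have : (fun S => ReflTransGen (BAdj S) (0 : Fin d → ℤ) y) = fun S => ∃ l : List (Fin d → ℤ),
        List.IsChain (BAdj S) (0 :: l) ∧ (0 :: l).getLast (List.cons_ne_nil _ _) = y := by
      funext S
      exact propext ⟨List.exists_isChain_cons_of_relationReflTransGen, fun ⟨l, h3, h4⟩ =>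
        List.relationReflTransGen_of_exists_isChain_cons l h3 h4⟩
    rw [this]
    exact Measurable.exists fun l => (h1 l 0).and measurable_const
  have h3 : Perc d = {S | ∀ F : Finset (Fin d → ℤ), ∃ y, ReflTransGen (BAdj S) 0 y ∧ y ∉ F} := by
    ext S
    refine ⟨fun h F => Set.Infinite.exists_notMem_finset h F, fun h hf => ?_⟩
    obtain ⟨y, h4, h5⟩ := h hf.toFinset
    exact h5 (hf.mem_toFinset.2 h4)
  rw [h3]
  exact measurableSet_setOfPred.2
    (Measurable.forall fun F => Measurable.exists fun y => (h2 y).and measurable_const)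

theorem perc_pos : 0 < law 3 2 (Perc 2) := by
  refine pos_iff_ne_zero.2 fun h => exists_cluster fun i => ?_
  rw [← law_eq i, Measure.map_apply (measurable_T i) (measurableSet_perc 2)] at h
  refine measure_mono_null (fun ω hω => ?_) h
  set e : V → Fin 2 → ℤ := fun a => ![a.1 - i, a.2] with he
  have h1 : Function.Injective e := by
    intro a b h
    have h0 := congrFun h 0
    have h1 := congrFun h 1
    simp only [he, Matrix.cons_val_zero, Matrix.cons_val_one] at h0 h1
    exact Prod.ext (by omega) h1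
  have h2 : e (i, 0) = 0 := by
    funext k
    fin_cases k <;> simp [he]
  have h3 : ∀ (a : V) (c : Fin 4), e (a + ev c) = nv (e a) c := by
    intro a c
    funext k
    fin_cases k
    · simp [he, nv]
      ring
    · simp [he, nv]
  have h4 : ∀ a : V, dbl (e a 0 + i, e a 1) = dbl a := fun a => by simp [he]
  refine Set.Infinite.mono ?_ (Set.Infinite.image h1.injOn hω)
  rintro _ ⟨b, hb, rfl⟩
  rw [Set.mem_ofPred_eq, ← h2]
  refine ReflTransGen.lift e ?_ _ _ hb
  rintro a _ ⟨c, rfl, h5, h6⟩
  have h7 : a = a + ev c + ev (c + 2) := by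
    obtain ⟨x, y⟩ := a
    fin_cases c <;> simp [ev]
  have h8 : ∀ (a : V) (c : Fin 4), e (a + ev c) ∈ nbrs (e a) := fun a c => by
    rw [h3, nbrs_eq]
    exact Set.mem_range_self c
  refine ⟨h8 a c, ⟨h8 a c, fun h => ?_⟩, ?_, fun h => ?_⟩
  · rw [h4, h3] at h
    exact h5 (nv_inj _ h).symm
  · have := h8 (a + ev c) (c + 2)
    rwa [← h7] at this
  · rw [h4, Set.mem_singleton_iff, h7, h3, ← h7] at h
    exact h6 (nv_inj _ h).symm

end Pool.Agent.Lib.MP_627919_pr
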