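import Mathlib

/-!
Resampling one coordinate of an i.i.d. uniform field, and a correlation inequality.
-/

namespace Pool.Agent.Lib.MP_627919_pr

open MeasureTheory ProbabilityTheory Function
open scoped ENNReal

/-- lattice points -/
abbrev V := ℤ × ℤ

/-- configurations: the omitted direction at each site -/
abbrev Om := V → Fin 4

/-- the product of uniform measures -/
noncomputable def mu : Measure Om := Measure.infinitePi fun _ => uniformOn Set.univ

instance : IsProbabilityMeasure mu := by unfold mu; infer_instance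

theorem unif_map_equiv {α β : Type*} [Fintype α] [Fintype β] [MeasurableSpace α]
    [MeasurableSpace β] [MeasurableSingletonClass α] [MeasurableSingletonClass β] (e : α ≃ β) :
    (uniformOn (Set.univ : Set α)).map e = uniformOn (Set.univ : Set β) := by
  ext s hs
  rw [Measure.map_apply (measurable_of_countable e) hs, uniformOn_univ, uniformOn_univ,
    Fintype.card_congr e]
  congr 1
  rw [Measure.count_apply (Set.toFinite _).measurableSet, Measure.count_apply hs,
    Set.encard_preimage_of_bijective e.bijective]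

/-- average over the value at `v` -/
noncomputable def drop (v : V) (f : Om → ℝ≥0∞) (ω : Om) : ℝ≥0∞ :=
  4⁻¹ * ∑ x : Fin 4, f (update ω v x)

theorem measurable_drop (v : V) {f : Om → ℝ≥0∞} (hf : Measurable f) : Measurable (drop v f) := by
  unfold drop
  refine Measurable.const_mul (Finset.measurable_sum _ fun x _ => hf.comp ?_) _
  exact measurable_update_left

theorem inv4 : (4 : ℝ≥0∞)⁻¹ * 4 = 1 := ENNReal.inv_mul_cancel (by norm_num) (by norm_num)

theorem lintegral_drop (v : V) {f : Om → ℝ≥0∞} (hf : Measurable f) :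
    ∫⁻ ω, drop v f ω ∂mu = ∫⁻ ω, f ω ∂mu := by
  have key : ∀ k : Fin 4, ∫⁻ ω, f (update ω v (ω v + k)) ∂mu = ∫⁻ ω, f ω ∂mu := by
    intro k
    set g : V → Fin 4 → Fin 4 := fun i x => if i = v then x + k else x with hg
    have h1 := Measure.infinitePi_map_pi (fun _ : V => uniformOn (Set.univ : Set (Fin 4)))
      (f := g) fun i => measurable_of_countable _
    have h2 : (fun i => (uniformOn (Set.univ : Set (Fin 4))).map (g i))
        = fun _ : V => uniformOn (Set.univ : Set (Fin 4)) := by
      funext i
      by_cases hi : i = v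
      · have : g i = Equiv.addRight k := by funext x; simp [hg, hi]
        rw [this, unif_map_equiv]
      · have : g i = id := by funext x; simp [hg, hi]
        rw [this, Measure.map_id]
    rw [h2] at h1
    have h3 : ∀ ω : Om, update ω v (ω v + k) = fun i => g i (ω i) := by
      intro ω
      funext i
      by_cases hi : i = v
      · subst hi; simp [hg]
      · simp [hg, hi]
    simp_rw [h3]
    have hm : Measurable fun (ω : Om) i => g i (ω i) :=
      measurable_pi_lambda _ fun i => (measurable_of_countable (g i)).comp (measurable_pi_apply i)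
    rw [← lintegral_map hf hm]
    unfold mu
    rw [h1]
  have hm : ∀ k : Fin 4, Measurable fun ω : Om => f (update ω v (ω v + k)) := by
    intro k
    refine hf.comp (measurable_pi_lambda _ fun i => ?_)
    by_cases hi : i = v
    · subst hi
      simp only [update_self]
      exact (measurable_of_countable (· + k)).comp (measurable_pi_apply i)
    · simp only [update_of_ne hi]
      exact measurable_pi_apply i
  have h4 : ∀ ω : Om, drop v f ω = 4⁻¹ * ∑ k : Fin 4, f (update ω v (ω v + k)) := by
    intro ω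
    rw [drop, ← Equiv.sum_comp (Equiv.addLeft (ω v)) fun x => f (update ω v x)]
    rfl
  simp_rw [h4]
  rw [lintegral_const_mul _ (Finset.measurable_sum _ fun k _ => hm k),
    lintegral_finsetSum _ fun k _ => hm k]
  simp only [key, Finset.sum_const, Finset.card_univ, Fintype.card_fin, nsmul_eq_mul]
  rw [← mul_assoc]
  norm_num [inv4]

/-- `g` does not depend on the value at `v` -/
def Inv (v : V) (g : Om → ℝ≥0∞) : Prop := ∀ ω x, g (update ω v x) = g ω

theorem inv_drop (v : V) (f : Om → ℝ≥0∞) : Inv v (drop v f) := by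
  intro ω x
  simp [drop]

theorem drop_mul_inv {v : V} (f : Om → ℝ≥0∞) {g : Om → ℝ≥0∞} (hg : Inv v g) (ω : Om) :
    drop v (fun ω => f ω * g ω) ω = drop v f ω * g ω := by
  simp only [drop, hg ω, ← Finset.sum_mul, mul_assoc]

/-- as a function of the value at `v`, `f` is minimal and constant outside `D` -/
def Up (v : V) (f : Om → ℝ≥0∞) (D : Set (Fin 4)) : Prop :=
  ∀ ω, ∃ g, (∀ x, g ≤ f (update ω v x)) ∧ ∀ x, x ∉ D → f (update ω v x) = g

theorem Up.mono {v : V} {f : Om → ℝ≥0∞} {D E : Set (Fin 4)} (h : Up v f D) (hDE : D ⊆ E) :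
    Up v f E := fun ω => by
  obtain ⟨g, h1, h2⟩ := h ω
  exact ⟨g, h1, fun x hx => h2 x fun hD => hx (hDE hD)⟩

theorem Inv.up {v : V} {f : Om → ℝ≥0∞} (h : Inv v f) (D : Set (Fin 4)) : Up v f D :=
  fun ω => ⟨f ω, fun x => (h ω x).ge, fun x _ => h ω x⟩

theorem up_univ (v : V) (f : Om → ℝ≥0∞) : Up v f Set.univ :=
  fun _ => ⟨0, fun _ => zero_le, fun _ hx => absurd (Set.mem_univ _) hx⟩

theorem Up.mul {v : V} {f g : Om → ℝ≥0∞} {D : Set (Fin 4)} (hf : Up v f D) (hg : Up v g D) :
    Up v (fun ω => f ω * g ω) D := fun ω => by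
  obtain ⟨a, h1, h2⟩ := hf ω
  obtain ⟨b, h3, h4⟩ := hg ω
  exact ⟨a * b, fun x => mul_le_mul' (h1 x) (h3 x), fun x hx => by simp only [h2 x hx, h4 x hx]⟩

theorem Up.drop {v : V} {f : Om → ℝ≥0∞} {D : Set (Fin 4)} (hf : Up v f D) (u : V) :
    Up v (drop u f) D := by
  by_cases huv : u = v
  · subst huv
    exact (inv_drop u f).up D
  · intro ω
    choose g h1 h2 using fun y => hf (update ω u y)
    refine ⟨4⁻¹ * ∑ y, g y, fun x => ?_, fun x hx => ?_⟩
    · unfold MP_627919_pr.drop
      gcongr with y
      rw [update_comm (Ne.symm huv)]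
      exact h1 y x
    · unfold MP_627919_pr.drop
      congr 1
      refine Finset.sum_congr rfl fun y _ => ?_
      rw [update_comm (Ne.symm huv)]
      exact h2 y x hx

theorem drop_mul_le {v : V} {G H : Om → ℝ≥0∞} {D : Set (Fin 4)} (hG : Up v G Dᶜ) (hH : Up v H D)
    (ω : Om) : drop v (fun ω => G ω * H ω) ω ≤ drop v G ω * drop v H ω := by
  obtain ⟨g, g1, g2⟩ := hG ω
  obtain ⟨h, h1, h2⟩ := hH ω
  have ex : ∀ x, ∃ α β : ℝ≥0∞, G (update ω v x) = g + α ∧ H (update ω v x) = h + β ∧ α * β = 0 := by
    intro x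
    by_cases hx : x ∈ D
    · obtain ⟨β, hβ⟩ := le_iff_exists_add.1 (h1 x)
      exact ⟨0, β, by rw [g2 x (by simpa using hx), add_zero], hβ, zero_mul _⟩
    · obtain ⟨α, hα⟩ := le_iff_exists_add.1 (g1 x)
      exact ⟨α, 0, hα, by rw [h2 x hx, add_zero], mul_zero _⟩
  choose α β e1 e2 e3 using ex
  have e4 : ∀ x, G (update ω v x) * H (update ω v x) = g * h + g * β x + h * α x := by
    intro x
    rw [e1, e2, add_mul, mul_add, mul_add, e3]
    ring
  simp only [MP_627919_pr.drop, e4]
  simp only [e1, e2, Finset.sum_add_distrib, ← Finset.mul_sum, Finset.sum_const,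
    Finset.card_univ, Fintype.card_fin, nsmul_eq_mul]
  set A := ∑ x, α x
  set B := ∑ x, β x
  push_cast
  calc 4⁻¹ * (g * (4 * h) + g * B + h * A)
      = 4⁻¹ * (4⁻¹ * 4) * (g * (4 * h) + g * B + h * A) := by rw [inv4, mul_one]
    _ ≤ 4⁻¹ * (4⁻¹ * 4) * (g * (4 * h) + g * B + h * A) + 4⁻¹ * 4⁻¹ * (A * B) := le_self_add
    _ = _ := by ring

theorem corr {v : V} {G H : Om → ℝ≥0∞} {D : Set (Fin 4)} (mG : Measurable G) (mH : Measurable H)
    (hG : Up v G Dᶜ) (hH : Up v H D) :
    ∫⁻ ω, G ω * H ω ∂mu ≤ ∫⁻ ω, G ω * drop v H ω ∂mu := by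
  have m1 : Measurable fun ω => G ω * H ω := mG.mul mH
  have m2 : Measurable fun ω => G ω * drop v H ω := mG.mul (measurable_drop v mH)
  rw [← lintegral_drop v m1, ← lintegral_drop v m2]
  refine lintegral_mono fun ω => ?_
  rw [drop_mul_inv G (inv_drop v H)]
  exact drop_mul_le hG hH ω

/-- averaging over a list of sites -/
noncomputable def dropL : List V → (Om → ℝ≥0∞) → Om → ℝ≥0∞
  | [], f => f
  | v :: l, f => drop v (dropL l f)

theorem measurable_dropL (l : List V) {f : Om → ℝ≥0∞} (hf : Measurable f) :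
    Measurable (dropL l f) := by
  induction l with
  | nil => exact hf
  | cons v l ih => exact measurable_drop v ih

theorem Up.dropL {v : V} {f : Om → ℝ≥0∞} {D : Set (Fin 4)} (hf : Up v f D) (l : List V) :
    Up v (dropL l f) D := by
  induction l with
  | nil => exact hf
  | cons u l ih => exact ih.drop u

theorem corrL {G H : Om → ℝ≥0∞} (D : V → Set (Fin 4)) (mG : Measurable G) (mH : Measurable H)
    (l : List V) (hG : ∀ v ∈ l, Up v G (D v)ᶜ) (hH : ∀ v ∈ l, Up v H (D v)) :
    ∫⁻ ω, G ω * H ω ∂mu ≤ ∫⁻ ω, G ω * dropL l H ω ∂mu := by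
  induction l with
  | nil => exact le_rfl
  | cons v l ih =>
    refine (ih (fun u hu => hG u (List.mem_cons_of_mem _ hu))
      fun u hu => hH u (List.mem_cons_of_mem _ hu)).trans ?_
    exact corr mG (measurable_dropL l mH) (hG v List.mem_cons_self)
      ((hH v List.mem_cons_self).dropL l)

/-- the box of configurations with prescribed value sets -/
def box (S : V → Finset (Fin 4)) : Set Om := {ω | ∀ v, ω v ∈ S v}

theorem measurableSet_box (S : V → Finset (Fin 4)) : MeasurableSet (box S) := by
  have : box S = ⋂ v, (fun ω : Om => ω v) ⁻¹' (S v : Set (Fin 4)) := by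
    ext ω; simp [box]
  rw [this]
  exact MeasurableSet.iInter fun v => measurable_pi_apply v (Set.toFinite _).measurableSet

/-- integral over a box -/
noncomputable def NN (S : V → Finset (Fin 4)) (f : Om → ℝ≥0∞) : ℝ≥0∞ :=
  ∫⁻ ω, (box S).indicator 1 ω * f ω ∂mu

theorem measurable_ind (S : V → Finset (Fin 4)) :
    Measurable ((box S).indicator (1 : Om → ℝ≥0∞)) :=
  measurable_one.indicator (measurableSet_box S)

theorem ind_split (S : V → Finset (Fin 4)) (v : V) (ω : Om) :
    (box S).indicator (1 : Om → ℝ≥0∞) ω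
      = (if ω v ∈ S v then 1 else 0) * (box (update S v Finset.univ)).indicator 1 ω := by
  by_cases h : ω ∈ box S
  · have h2 : ω ∈ box (update S v Finset.univ) := fun u => by
      by_cases hu : u = v
      · subst hu; simp
      · rw [update_of_ne hu]; exact h u
    simp [h, h2, h v]
  · by_cases h1 : ω v ∈ S v
    · have h2 : ω ∉ box (update S v Finset.univ) := fun h2 => h fun u => by
        by_cases hu : u = v
        · subst hu; exact h1
        · have := h2 u
          rwa [update_of_ne hu] at this
      simp [h, h2]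
    · simp [h, h1]

theorem inv_ind (S : V → Finset (Fin 4)) (v : V) :
    Inv v ((box (update S v Finset.univ)).indicator 1) := by
  intro ω x
  have : update ω v x ∈ box (update S v Finset.univ) ↔ ω ∈ box (update S v Finset.univ) := by
    refine forall_congr' fun u => ?_
    by_cases hu : u = v
    · subst hu; simp
    · simp [update_of_ne hu]
  by_cases h : ω ∈ box (update S v Finset.univ)
  · simp [h, this.2 h]
  · simp [h, mt this.1 h]

theorem NN_drop (S : V → Finset (Fin 4)) (v : V) {f : Om → ℝ≥0∞} (hf : Measurable f) :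
    NN S (drop v f) = 4⁻¹ * (S v).card * NN (update S v Finset.univ) f := by
  have mi := measurable_ind (update S v Finset.univ)
  have m1 : Measurable fun ω : Om => (if ω v ∈ S v then (1 : ℝ≥0∞) else 0) :=
    (measurable_of_countable fun x => if x ∈ S v then (1 : ℝ≥0∞) else 0).comp
      (measurable_pi_apply v)
  have hinv : Inv v fun ω => (box (update S v Finset.univ)).indicator 1 ω * drop v f ω :=
    fun ω x => by simp only [inv_ind S v ω x, inv_drop v f ω x]
  have e1 : NN (update S v Finset.univ) f
      = ∫⁻ ω, (box (update S v Finset.univ)).indicator 1 ω * drop v f ω ∂mu := by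
    have m0 : Measurable fun ω => (box (update S v Finset.univ)).indicator 1 ω * f ω := mi.mul hf
    rw [NN, ← lintegral_drop v m0]
    refine lintegral_congr fun ω => ?_
    simp_rw [mul_comm ((box (update S v Finset.univ)).indicator 1 _)]
    exact drop_mul_inv f (inv_ind S v) ω
  rw [e1, NN]
  simp_rw [ind_split S v, mul_assoc]
  have m2 : Measurable fun ω => (box (update S v Finset.univ)).indicator 1 ω * drop v f ω :=
    mi.mul (measurable_drop v hf)
  have m3 : Measurable fun ω : Om => (if ω v ∈ S v then (1 : ℝ≥0∞) else 0) *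
      ((box (update S v Finset.univ)).indicator 1 ω * drop v f ω) := m1.mul m2
  have m4 : Measurable fun ω : Om => ((S v).card : ℝ≥0∞) *
      ((box (update S v Finset.univ)).indicator 1 ω * drop v f ω) := m2.const_mul _
  rw [← lintegral_drop v m3, ← lintegral_const_mul _ m2, ← lintegral_const_mul _ m4]
  refine lintegral_congr fun ω => ?_
  have e2 : drop v (fun ω : Om => if ω v ∈ S v then (1 : ℝ≥0∞) else 0) ω
      = 4⁻¹ * (S v).card := by
    simp [MP_627919_pr.drop]
  rw [drop_mul_inv _ hinv, e2, mul_assoc]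

/-- the mass of a box -/
noncomputable def wt (S : V → Finset (Fin 4)) : ℝ≥0∞ := NN S fun _ => 1

theorem wt_eq (S : V → Finset (Fin 4)) (v : V) :
    wt S = 4⁻¹ * (S v).card * wt (update S v Finset.univ) := by
  have : drop v (fun _ => 1) = fun _ => 1 := by
    funext ω
    simp [drop, inv4]
  rw [wt, ← this, NN_drop S v measurable_const, wt]

theorem wt_univ : wt (fun _ => Finset.univ) = 1 := by
  have : box (fun _ => Finset.univ) = Set.univ := by ext ω; simp [box]
  simp [wt, NN, this]

theorem NN_univ (f : Om → ℝ≥0∞) : NN (fun _ => Finset.univ) f = ∫⁻ ω, f ω ∂mu := by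
  have : box (fun _ => Finset.univ) = Set.univ := by ext ω; simp [box]
  simp [NN, this]

theorem NN_drop_le {S : V → Finset (Fin 4)} {v : V} {f : Om → ℝ≥0∞} (hf : Measurable f)
    {X Y : ℝ≥0∞} (h : Y * NN (update S v Finset.univ) f ≤ X * wt (update S v Finset.univ)) :
    Y * NN S (drop v f) ≤ X * wt S := by
  rw [NN_drop S v hf, wt_eq S v, mul_left_comm, mul_left_comm X]
  gcongr

theorem wt_update_le (S : V → Finset (Fin 4)) (v : V) (T : Finset (Fin 4)) {a b : ℕ}
    (h : a * T.card ≤ b * (S v).card) : a * wt (update S v T) ≤ b * wt S := by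
  rw [wt_eq S v, wt_eq (update S v T) v, update_self, update_idem]
  have h' : (a : ℝ≥0∞) * T.card ≤ b * (S v).card := by exact_mod_cast h
  calc (a : ℝ≥0∞) * (4⁻¹ * T.card * wt (update S v Finset.univ))
      = (a * T.card) * (4⁻¹ * wt (update S v Finset.univ)) := by ring
    _ ≤ (b * (S v).card) * (4⁻¹ * wt (update S v Finset.univ)) := by gcongr
    _ = _ := by ring

theorem NN_restrict (S : V → Finset (Fin 4)) (v : V) (T : Finset (Fin 4)) (f : Om → ℝ≥0∞) :
    NN S (fun ω => (if ω v ∈ T then 1 else 0) * f ω) = NN (update S v (S v ∩ T)) f := by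
  refine lintegral_congr fun ω => ?_
  rw [ind_split S v, ind_split (update S v (S v ∩ T)) v, update_idem, update_self]
  by_cases h1 : ω v ∈ S v <;> by_cases h2 : ω v ∈ T <;> simp [h1, h2]

theorem NN_dropL (l : List V) (S : V → Finset (Fin 4)) :
    ∃ κ : ℝ≥0∞, ∀ f : Om → ℝ≥0∞, Measurable f →
      NN S (dropL l f) = κ * NN (fun v => if v ∈ l then Finset.univ else S v) f := by
  induction l generalizing S with
  | nil => exact ⟨1, fun f _ => by simp [dropL]⟩
  | cons u l ih =>
    obtain ⟨κ, hκ⟩ := ih (update S u Finset.univ)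
    refine ⟨4⁻¹ * (S u).card * κ, fun f hf => ?_⟩
    rw [dropL, NN_drop S u (measurable_dropL l hf), hκ f hf, mul_assoc _ κ]
    congr 3
    funext v
    by_cases h : v = u
    · subst h; simp
    · simp [h]

theorem dropL_one (l : List V) : dropL l (fun _ => 1) = fun _ => 1 := by
  induction l with
  | nil => rfl
  | cons u l ih =>
    funext ω
    simp [dropL, ih, drop, inv4]

end Pool.Agent.Lib.MP_627919_pr
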